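import Pool.Agent.X156.SR.Defs

/-!
# Simplicial refinements: a criterion
-/

set_option autoImplicit false

namespace Pool.Agent.X156.SR

variable {E F : Type*} [AddCommGroup E] [Module ℝ E] [AddCommGroup F] [Module ℝ F]

theorem Omega_comb {C : Set E} {ω ω' : C → ℝ} (h : ω ∈ Omega C) (h' : ω' ∈ Omega C) {t : ℝ}
    (h0 : 0 ≤ t) (h1 : t ≤ 1) : t • ω + (1 - t) • ω' ∈ Omega C := by
  refine ⟨fun a => ?_, fun a b c s hs0 hs1 hc => ?_⟩
  · have e1 := h.1 a
    have e2 := h'.1 a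
    simp only [Pi.add_apply, Pi.smul_apply, smul_eq_mul]
    constructor
    · have := mul_nonneg h0 e1.1
      have := mul_nonneg (sub_nonneg.2 h1) e2.1
      linarith
    · have := mul_le_mul_of_nonneg_left e1.2 h0
      have := mul_le_mul_of_nonneg_left e2.2 (sub_nonneg.2 h1)
      linarith
  · have e1 := h.2 a b c s hs0 hs1 hc
    have e2 := h'.2 a b c s hs0 hs1 hc
    simp only [Pi.add_apply, Pi.smul_apply, smul_eq_mul, e1, e2]
    ring

/-- The relation between forms on `T` and forms on `C` induced by `f`. -/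
def Rel (C : Set E) (T : Set F) (f : F →. E) (ω : T → ℝ) (η : C → ℝ) : Prop :=
  ω ∈ Omega T ∧ η ∈ Omega C ∧ ∀ (a : T) (c : C), (c : E) ∈ f a → η c = ω a

open Classical in
/-- The largest possible `g` for a given `f`. -/
noncomputable def pull (C : Set E) (T : Set F) (f : F →. E) : (T → ℝ) →. (C → ℝ) :=
  fun ω => ⟨∃ η, Rel C T f ω η, fun h => h.choose⟩

theorem mem_pull {C : Set E} {T : Set F} {f : F →. E} (hf : IsPartialOntoAffine T C f)
    {ω : T → ℝ} {η : C → ℝ} : η ∈ pull C T f ω ↔ Rel C T f ω η := by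
  constructor
  · rintro ⟨h, rfl⟩
    exact h.choose_spec
  · intro h
    refine ⟨⟨η, h⟩, ?_⟩
    have hex : ∃ η, Rel C T f ω η := ⟨η, h⟩
    have h2 := hex.choose_spec
    change hex.choose = η
    funext c
    obtain ⟨a, ha⟩ := hf.2.2 c c.2
    have haT := (hf.1 a c ha).1
    rw [h2.2.2 ⟨a, haT⟩ c ha, h.2.2 ⟨a, haT⟩ c ha]

/-- If every form on `C` lifts to a form on `T` then `f` is part of a simplicial refinement. -/
theorem isRefinement_pull {C : Set E} {T : Set F} {f : F →. E} (hT : IsSimplex T)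
    (hf : IsPartialOntoAffine T C f)
    (hlift : ∀ η ∈ Omega C, ∃ ω ∈ Omega T, ∀ (a : T) (c : C), (c : E) ∈ f a → η c = ω a) :
    IsRefinement C T f (pull C T f) where
  simplex := hT
  f_map := hf
  g_map := by
    refine ⟨fun ω η h => ?_, fun ω ω' η η' h h' t h0 h1 => ?_, fun η hη => ?_⟩
    · rw [mem_pull hf] at h
      exact ⟨h.1, h.2.1⟩
    · rw [mem_pull hf] at h h' ⊢
      refine ⟨Omega_comb h.1 h'.1 h0 h1, Omega_comb h.2.1 h'.2.1 h0 h1, fun a c hc => ?_⟩
      simp only [Pi.add_apply, Pi.smul_apply, smul_eq_mul, h.2.2 a c hc, h'.2.2 a c hc]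
    · obtain ⟨ω, hω, h⟩ := hlift η hη
      exact ⟨ω, (mem_pull hf).2 ⟨hω, hη, h⟩⟩
  dual := fun a c ω η hc hη => ((mem_pull hf).1 hη).2.2 a c hc

end Pool.Agent.X156.SR
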