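import Pool.Agent.X156.SR.Extreme

/-!
# The number of extreme points of central sections of the cross-polytope
-/

set_option autoImplicit false

open Finset

namespace Pool.Agent.X156.SR

variable {ι : Type*} [Fintype ι]

theorem ne_zero_of_norm {x : ι → ℝ} (h : ∑ i, |x i| = 1) : ∃ i, x i ≠ 0 := by
  by_contra hcon
  push Not at hcon
  have : ∑ i, |x i| = 0 := Finset.sum_eq_zero fun i _ => by rw [hcon i, abs_zero]
  linarith

theorem eq_or_neg_of_norm {x y : ι → ℝ} (hx : ∑ i, |x i| = 1) (hy : ∑ i, |y i| = 1) {t : ℝ}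
    (h : y = t • x) : y = x ∨ y = -x := by
  rw [h, sum_abs_smul, hx, mul_one] at hy
  rcases (abs_eq zero_le_one).1 hy with h1 | h1
  · left; rw [h, h1, one_smul]
  · right; rw [h, h1, neg_one_smul]

theorem body_extreme_finite (L : Submodule ℝ (ι → ℝ)) : ((body L).extremePoints ℝ).Finite := by
  classical
  by_cases hL : L = ⊥
  · refine (Set.finite_singleton (0 : ι → ℝ)).subset fun x hx => ?_
    have := hx.1.1
    rw [hL] at this
    exact this
  · refine Set.Finite.of_finite_image (f := fun x : ι → ℝ => fun i => SignType.sign (x i))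
      (Set.toFinite _) ?_
    intro x hx y hy hxy
    have h1 := norm_of_extreme hL hx
    have h2 := norm_of_extreme hL hy
    have h3 : ∀ i, SignType.sign (x i) = SignType.sign (y i) := fun i => congrFun hxy i
    obtain ⟨t, ht⟩ := minimal_of_extreme h1 hx hy.1.1 (fun i hi => by
      have := h3 i
      rw [hi, sign_zero] at this
      exact sign_eq_zero_iff.1 this.symm)
    rcases eq_or_neg_of_norm h1 h2 ht with h | h
    · exact h.symm
    · exfalso
      obtain ⟨i, hi⟩ := ne_zero_of_norm h1
      have := h3 i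
      rw [h, Pi.neg_apply, Left.sign_neg] at this
      rcases lt_or_gt_of_ne hi with h4 | h4
      · rw [sign_neg h4] at this
        exact absurd this (by decide)
      · rw [sign_pos h4] at this
        exact absurd this (by decide)

theorem body_isPolytope (L : Submodule ℝ (ι → ℝ)) : IsPolytope (body L) :=
  ⟨⟨0, body_zero L⟩, body_isCompact L, body_convex L, body_extreme_finite L⟩

/-- the support -/
noncomputable def supp (x : ι → ℝ) : Finset ι := by
  classical
  exact univ.filter fun i => x i ≠ 0

theorem mem_supp {x : ι → ℝ} {i : ι} : i ∈ supp x ↔ x i ≠ 0 := by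
  classical
  unfold supp
  simp

theorem supp_smul {x : ι → ℝ} {t : ℝ} (ht : t ≠ 0) : supp (t • x) = supp x := by
  ext i
  rw [mem_supp, mem_supp, Pi.smul_apply, smul_eq_mul]
  simp [ht]

theorem supp_neg (x : ι → ℝ) : supp (-x) = supp x := by
  ext i
  rw [mem_supp, mem_supp, Pi.neg_apply]
  simp

/-- The supports of the nonzero vectors of `L` have more than `r` elements, and all sets with
`r + 1` elements are supports. -/
structure Uniform (L : Submodule ℝ (ι → ℝ)) (r : ℕ) : Prop where
  low : ∀ x ∈ L, x ≠ 0 → r + 1 ≤ (supp x).card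
  ex : ∀ S : Finset ι, S.card = r + 1 → ∃ x ∈ L, supp x = S

theorem Uniform.scale {L : Submodule ℝ (ι → ℝ)} {r : ℕ} (h : Uniform L r) {x y : ι → ℝ}
    (hx : x ∈ L) (hy : y ∈ L) (hc : (supp x).card = r + 1) (hs : supp y ⊆ supp x) :
    ∃ t : ℝ, y = t • x := by
  classical
  obtain ⟨i, hi⟩ : (supp x).Nonempty := Finset.card_pos.1 (by omega)
  have hi' := mem_supp.1 hi
  refine ⟨y i / x i, ?_⟩
  by_contra hne
  have h1 : y - (y i / x i) • x ∈ L := L.sub_mem hy (L.smul_mem _ hx)
  have h2 : y - (y i / x i) • x ≠ 0 := fun h0 => hne (sub_eq_zero.1 h0)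
  have h3 := h.low _ h1 h2
  have h4 : supp (y - (y i / x i) • x) ⊆ (supp x).erase i := by
    intro j hj
    rw [mem_supp] at hj
    rw [Finset.mem_erase]
    refine ⟨?_, ?_⟩
    · rintro rfl
      apply hj
      simp only [Pi.sub_apply, Pi.smul_apply, smul_eq_mul]
      field_simp
      ring
    · by_contra hjx
      have e1 : x j = 0 := by
        by_contra h0
        exact hjx (mem_supp.2 h0)
      have e2 : y j = 0 := by
        by_contra h0
        exact hjx (hs (mem_supp.2 h0))
      apply hj
      simp [e1, e2]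
  have h5 := Finset.card_le_card h4
  rw [Finset.card_erase_of_mem hi] at h5
  omega

theorem Uniform.card_of_extreme {L : Submodule ℝ (ι → ℝ)} {r : ℕ} (h : Uniform L r) {x : ι → ℝ}
    (hn : ∑ i, |x i| = 1) (hx : x ∈ (body L).extremePoints ℝ) : (supp x).card = r + 1 := by
  classical
  have hx0 : x ≠ 0 := by
    rintro rfl
    simp at hn
  have h1 := h.low x hx.1.1 hx0
  obtain ⟨S, hS, hSc⟩ := Finset.exists_subset_card_eq h1
  obtain ⟨y, hy, hyS⟩ := h.ex S hSc
  obtain ⟨t, ht⟩ := minimal_of_extreme hn hx hy (fun i hi => by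
    by_contra h0
    have := hS (hyS ▸ mem_supp.2 h0)
    exact mem_supp.1 this hi)
  have ht0 : t ≠ 0 := by
    rintro rfl
    rw [zero_smul] at ht
    have : (supp y).card = 0 := by
      rw [Finset.card_eq_zero, ht]
      ext i
      rw [mem_supp]
      simp
    rw [hyS, hSc] at this
    omega
  rw [← supp_smul ht0, ← ht, hyS, hSc]

theorem Uniform.ncard {L : Submodule ℝ (ι → ℝ)} {r : ℕ} (h : Uniform L r)
    (hr : r + 1 ≤ Fintype.card ι) :
    ((body L).extremePoints ℝ).ncard = 2 * (Fintype.card ι).choose (r + 1) := by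
  classical
  have hL : L ≠ ⊥ := by
    obtain ⟨S, _, hS⟩ := Finset.exists_subset_card_eq (s := (univ : Finset ι)) (n := r + 1)
      (by rw [Finset.card_univ]; exact hr)
    obtain ⟨x, hx, hxS⟩ := h.ex S hS
    rintro rfl
    have : x = 0 := hx
    have h2 : supp x = ∅ := by
      rw [this]
      ext i
      rw [mem_supp]
      simp
    rw [h2] at hxS
    rw [← hxS] at hS
    simp at hS
  have hc : ∀ S : Finset ι, ∃ x : ι → ℝ, S.card = r + 1 →
      x ∈ L ∧ supp x = S ∧ ∑ i, |x i| = 1 := by
    intro S
    by_cases hS : S.card = r + 1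
    · obtain ⟨x, hx, hxS⟩ := h.ex S hS
      have hpos : 0 < ∑ i, |x i| := by
        obtain ⟨i, hi⟩ : (supp x).Nonempty := Finset.card_pos.1 (by rw [hxS]; omega)
        exact lt_of_lt_of_le (abs_pos.2 (mem_supp.1 hi))
          (Finset.single_le_sum (f := fun i => |x i|) (fun _ _ => abs_nonneg _)
            (Finset.mem_univ i))
      refine ⟨(∑ i, |x i|)⁻¹ • x, fun _ => ⟨L.smul_mem _ hx, ?_, ?_⟩⟩
      · rw [supp_smul (inv_ne_zero hpos.ne'), hxS]
      · rw [sum_abs_smul, abs_of_pos (inv_pos.2 hpos), inv_mul_cancel₀ hpos.ne']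
    · exact ⟨0, fun h => absurd h hS⟩
  choose c hc using hc
  let A : Finset (Finset ι × Bool) := (powersetCard (r + 1) univ) ×ˢ univ
  let F : Finset ι × Bool → (ι → ℝ) := fun p => if p.2 then c p.1 else -c p.1
  have hA : ∀ p ∈ A, p.1.card = r + 1 := by
    intro p hp
    rw [Finset.mem_product, Finset.mem_powersetCard] at hp
    exact hp.1.2
  have hFs : ∀ p ∈ A, supp (F p) = p.1 := by
    intro p hp
    simp only [F]
    split_ifs
    · exact (hc p.1 (hA p hp)).2.1
    · rw [supp_neg]
      exact (hc p.1 (hA p hp)).2.1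
  have hinj : Set.InjOn F A := by
    intro p hp q hq hpq
    have h1 := hFs p hp
    have h2 := hFs q hq
    rw [hpq, h2] at h1
    obtain ⟨S, b⟩ := p
    obtain ⟨S', b'⟩ := q
    simp only at h1
    subst h1
    have h3 := (hc S' (hA _ hp)).2.2
    obtain ⟨i, hi⟩ := ne_zero_of_norm h3
    simp only [F] at hpq
    have h4 := congrFun hpq i
    rcases b with _ | _ <;> rcases b' with _ | _ <;> simp at h4 ⊢
    · exact hi (by linarith)
    · exact hi (by linarith)
  have himg : (body L).extremePoints ℝ = F '' (A : Set (Finset ι × Bool)) := by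
    ext x
    constructor
    · intro hx
      have hn := norm_of_extreme hL hx
      have hcard := h.card_of_extreme hn hx
      have hcx := hc (supp x) hcard
      obtain ⟨t, ht⟩ := h.scale hcx.1 hx.1.1 (by rw [hcx.2.1]; exact hcard)
        (by rw [hcx.2.1])
      rcases eq_or_neg_of_norm hcx.2.2 hn ht with h1 | h1
      · refine ⟨(supp x, true), ?_, ?_⟩
        · rw [Finset.mem_coe, Finset.mem_product, Finset.mem_powersetCard]
          exact ⟨⟨Finset.subset_univ _, hcard⟩, Finset.mem_univ _⟩
        · simp only [F, if_true]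
          exact h1.symm
      · refine ⟨(supp x, false), ?_, ?_⟩
        · rw [Finset.mem_coe, Finset.mem_product, Finset.mem_powersetCard]
          exact ⟨⟨Finset.subset_univ _, hcard⟩, Finset.mem_univ _⟩
        · simp only [F, Bool.false_eq_true, if_false]
          exact h1.symm
    · rintro ⟨p, hp, rfl⟩
      have h1 := hA p hp
      have h2 := hc p.1 h1
      have hL' : F p ∈ L := by
        simp only [F]
        split_ifs
        · exact h2.1
        · exact L.neg_mem h2.1
      have hn' : ∑ i, |F p i| = 1 := by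
        simp only [F]
        split_ifs
        · exact h2.2.2
        · simp only [Pi.neg_apply, abs_neg]
          exact h2.2.2
      refine extreme_of_minimal hL' hn' fun y hy hz => ?_
      refine h.scale hL' hy (by rw [hFs p hp, h1]) fun i hi => ?_
      rw [mem_supp] at hi ⊢
      exact fun h0 => hi (hz i h0)
  rw [himg, hinj.ncard_image, Set.ncard_coe_finset]
  simp only [A]
  rw [Finset.card_product, Finset.card_powersetCard, Finset.card_univ, Finset.card_univ,
    Fintype.card_bool]
  ring

end Pool.Agent.X156.SR
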