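import Mathlib

/-!
# Statistical models and simplicial refinements: definitions
-/

set_option autoImplicit false

namespace Pool.Agent.X156.SR

variable {E F : Type*} [AddCommGroup E] [Module ℝ E] [AddCommGroup F] [Module ℝ F]

/-- A polytope: a nonempty compact convex set with finitely many extreme points. -/
def IsPolytope [TopologicalSpace E] (C : Set E) : Prop :=
  C.Nonempty ∧ IsCompact C ∧ Convex ℝ C ∧ (C.extremePoints ℝ).Finite

/-- A simplex: the convex hull of finitely many (at least one) affinely independent points. -/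
def IsSimplex (T : Set E) : Prop :=
  ∃ (n : ℕ) (v : Fin (n + 1) → E), AffineIndependent ℝ v ∧ T = convexHull ℝ (Set.range v)

/-- The convex-form space `Ω C` of a convex set `C`: the functions `C → [0,1]` which are affine,
that is, which preserve convex combinations. -/
def Omega (C : Set E) : Set (C → ℝ) :=
  {ω | (∀ a, 0 ≤ ω a ∧ ω a ≤ 1) ∧ ∀ (a b c : C) (t : ℝ), 0 ≤ t → t ≤ 1 →
    (c : E) = t • (a : E) + (1 - t) • (b : E) → ω c = t * ω a + (1 - t) * ω b}

/-- `h` (a partial function; `c ∈ h a` means that `h` is defined at `a` with value `c`) is a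
partial, onto, affine map from `X` to `Y`. -/
def IsPartialOntoAffine (X : Set E) (Y : Set F) (h : E →. F) : Prop :=
  (∀ a c, c ∈ h a → a ∈ X ∧ c ∈ Y) ∧
  (∀ a b c d, c ∈ h a → d ∈ h b → ∀ t : ℝ, 0 ≤ t → t ≤ 1 →
    t • c + (1 - t) • d ∈ h (t • a + (1 - t) • b)) ∧
  ∀ c ∈ Y, ∃ a, c ∈ h a

/-- `(T, Ω T, f, g)` is a simplicial refinement of the statistical model `(C, Ω C)`. -/
structure IsRefinement (C : Set E) (T : Set F) (f : F →. E) (g : (T → ℝ) →. (C → ℝ)) : Prop where
  simplex : IsSimplex T
  f_map : IsPartialOntoAffine T C f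
  g_map : IsPartialOntoAffine (Omega T) (Omega C) g
  dual : ∀ (a : T) (c : C) (ω : T → ℝ) (η : C → ℝ), (c : E) ∈ f a → η ∈ g ω → η c = ω a

end Pool.Agent.X156.SR
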