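import Pool.Agent.X156.SR.Section

/-!
# Extreme points of central sections of the cross-polytope
-/

set_option autoImplicit false

open Finset

namespace Pool.Agent.X156.SR

variable {ι : Type*} [Fintype ι]

theorem body_isCompact (L : Submodule ℝ (ι → ℝ)) : IsCompact (body L) := by
  have hcl : IsClosed (body L) := by
    have h1 : IsClosed (L : Set (ι → ℝ)) := L.closed_of_finiteDimensional
    have h2 : IsClosed {x : ι → ℝ | ∑ i, |x i| ≤ 1} :=
      isClosed_le (by fun_prop) continuous_const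
    exact h1.inter h2
  refine IsCompact.of_isClosed_subset (isCompact_closedBall (0 : ι → ℝ) 1) hcl ?_
  intro x hx
  rw [mem_closedBall_zero_iff, pi_norm_le_iff_of_nonneg zero_le_one]
  intro i
  rw [Real.norm_eq_abs]
  exact (Finset.single_le_sum (f := fun i => |x i|) (fun _ _ => abs_nonneg _)
    (Finset.mem_univ i)).trans hx.2

/-- A vector of norm one with minimal support is extreme. -/
theorem extreme_of_minimal {L : Submodule ℝ (ι → ℝ)} {x : ι → ℝ} (hx : x ∈ L)
    (hn : ∑ i, |x i| = 1) (hmin : ∀ y ∈ L, (∀ i, x i = 0 → y i = 0) → ∃ t : ℝ, y = t • x) :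
    x ∈ (body L).extremePoints ℝ := by
  rw [mem_extremePoints]
  refine ⟨⟨hx, hn.le⟩, ?_⟩
  -- first: a lemma for one of the two points
  have key : ∀ u ∈ body L, ∀ v ∈ body L, ∀ a b : ℝ, 0 < a → 0 < b → a + b = 1 →
      a • u + b • v = x → u = x := by
    intro u hu v hv a b ha hb hab h
    have h1 : ∀ i, |x i| = a * |u i| + b * |v i| := by
      have h2 : ∀ i ∈ (Finset.univ : Finset ι), |x i| ≤ a * |u i| + b * |v i| := by
        intro i _
        rw [← h]
        simp only [Pi.add_apply, Pi.smul_apply, smul_eq_mul]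
        calc |a * u i + b * v i| ≤ |a * u i| + |b * v i| := abs_add_le _ _
          _ = a * |u i| + b * |v i| := by rw [abs_mul, abs_mul, abs_of_pos ha, abs_of_pos hb]
      have h3 : ∑ i, (a * |u i| + b * |v i|) ≤ ∑ i, |x i| := by
        rw [Finset.sum_add_distrib, ← Finset.mul_sum, ← Finset.mul_sum, hn]
        have := mul_le_mul_of_nonneg_left hu.2 ha.le
        have := mul_le_mul_of_nonneg_left hv.2 hb.le
        linarith
      have h4 := (Finset.sum_eq_sum_iff_of_le h2).1 (le_antisymm (Finset.sum_le_sum h2) h3)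
      exact fun i => h4 i (Finset.mem_univ i)
    have hzero : ∀ i, x i = 0 → u i = 0 := by
      intro i hi
      have := h1 i
      rw [hi, abs_zero] at this
      have h5 : 0 ≤ b * |v i| := by positivity
      have h6 : 0 ≤ a * |u i| := by positivity
      have h7 : a * |u i| = 0 := by linarith
      rcases mul_eq_zero.1 h7 with h8 | h8
      · exact absurd h8 ha.ne'
      · exact abs_eq_zero.1 h8
    obtain ⟨t, ht⟩ := hmin u hu.1 hzero
    have hvzero : ∀ i, x i = 0 → v i = 0 := by
      intro i hi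
      have := h1 i
      rw [hi, abs_zero] at this
      have h5 : 0 ≤ b * |v i| := by positivity
      have h6 : 0 ≤ a * |u i| := by positivity
      have h7 : b * |v i| = 0 := by linarith
      rcases mul_eq_zero.1 h7 with h8 | h8
      · exact absurd h8 hb.ne'
      · exact abs_eq_zero.1 h8
    obtain ⟨s, hs⟩ := hmin v hv.1 hvzero
    have hx0 : ∃ i, x i ≠ 0 := by
      by_contra hcon
      push Not at hcon
      have : ∑ i, |x i| = 0 := Finset.sum_eq_zero fun i _ => by rw [hcon i, abs_zero]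
      linarith
    obtain ⟨i, hi⟩ := hx0
    have h9 := congrFun h i
    rw [ht, hs] at h9
    simp only [Pi.add_apply, Pi.smul_apply, smul_eq_mul] at h9
    have h10 : (a * t + b * s) * x i = 1 * x i := by linarith
    have h11 := mul_right_cancel₀ hi h10
    have h12 : |t| ≤ 1 := by
      have := hu.2
      rw [ht, sum_abs_smul, hn, mul_one] at this
      exact this
    have h13 : |s| ≤ 1 := by
      have := hv.2
      rw [hs, sum_abs_smul, hn, mul_one] at this
      exact this
    have h14 : t = 1 := by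
      have ht1 := (abs_le.1 h12).2
      have hs1 := (abs_le.1 h13).2
      nlinarith
    rw [ht, h14, one_smul]
  intro u hu v hv h
  obtain ⟨a, b, ha, hb, hab, h⟩ := h
  exact ⟨key u hu v hv a b ha hb hab h,
    key v hv u hu b a hb ha (by linarith) (by rw [add_comm]; exact h)⟩

/-- An extreme point of the body of a nonzero subspace has norm one. -/
theorem norm_of_extreme {L : Submodule ℝ (ι → ℝ)} (hL : L ≠ ⊥) {x : ι → ℝ}
    (hx : x ∈ (body L).extremePoints ℝ) : ∑ i, |x i| = 1 := by
  rw [mem_extremePoints] at hx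
  obtain ⟨hxb, hext⟩ := hx
  by_contra hne
  have hlt : ∑ i, |x i| < 1 := lt_of_le_of_ne hxb.2 hne
  obtain ⟨z, hz, hz0⟩ := (Submodule.ne_bot_iff _).1 hL
  set n := ∑ i, |z i| with hn
  have hnpos : 0 < n := by
    obtain ⟨i, hi⟩ := Function.ne_iff.1 hz0
    exact lt_of_lt_of_le (abs_pos.2 hi)
      (Finset.single_le_sum (f := fun i => |z i|) (fun _ _ => abs_nonneg _) (Finset.mem_univ i))
  set ε := (1 - ∑ i, |x i|) / n with hε
  have hεpos : 0 < ε := div_pos (by linarith) hnpos
  have hmem : ∀ s : ℝ, |s| = ε → x + s • z ∈ body L := by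
    intro s hs
    refine ⟨L.add_mem hxb.1 (L.smul_mem _ hz), (sum_abs_add _ _).trans ?_⟩
    rw [sum_abs_smul, hs, ← hn, hε]
    field_simp
    linarith
  have h1 := hmem ε (abs_of_pos hεpos)
  have h2 := hmem (-ε) (by rw [abs_neg, abs_of_pos hεpos])
  have h3 := hext _ h1 _ h2 ⟨1 / 2, 1 / 2, by norm_num, by norm_num, by norm_num, by
    rw [neg_smul]
    module⟩
  replace h3 := h3.1
  have h4 : ε • z = 0 := by
    have : x + ε • z = x + 0 := by rw [h3, add_zero]
    exact add_left_cancel this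
  rcases smul_eq_zero.1 h4 with h5 | h5
  · exact hεpos.ne' h5
  · exact hz0 h5

/-- An extreme point has minimal support. -/
theorem minimal_of_extreme {L : Submodule ℝ (ι → ℝ)} {x : ι → ℝ} (hn : ∑ i, |x i| = 1)
    (hx : x ∈ (body L).extremePoints ℝ) {y : ι → ℝ} (hy : y ∈ L)
    (hsupp : ∀ i, x i = 0 → y i = 0) : ∃ t : ℝ, y = t • x := by
  rw [mem_extremePoints] at hx
  obtain ⟨hxb, hext⟩ := hx
  -- a small `ε`
  obtain ⟨ε, hε, hsmall⟩ : ∃ ε : ℝ, 0 < ε ∧ ∀ i, x i ≠ 0 → ε * |y i| ≤ |x i| := by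
    have : ∀ i : ι, ∃ δ : ℝ, 0 < δ ∧ (x i ≠ 0 → δ * |y i| ≤ |x i|) := by
      intro i
      by_cases hi : x i = 0
      · exact ⟨1, one_pos, fun h => absurd hi h⟩
      · refine ⟨|x i| / (1 + |y i|), by positivity, fun _ => ?_⟩
        rw [div_mul_eq_mul_div, div_le_iff₀ (by positivity)]
        have : 0 < |x i| := abs_pos.2 hi
        nlinarith [abs_nonneg (y i)]
    choose δ hδ hδ' using this
    rcases isEmpty_or_nonempty ι with h | h
    · exact ⟨1, one_pos, fun i => h.elim i⟩
    · obtain ⟨i0, hi0⟩ := Finite.exists_min δ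
      exact ⟨δ i0, hδ i0, fun i hi =>
        (mul_le_mul_of_nonneg_right (hi0 i) (abs_nonneg _)).trans (hδ' i hi)⟩
  set σ := ∑ i, SignType.sign (x i) * y i with hσ
  have hval : ∀ s : ℝ, |s| ≤ ε → ∑ i, |(x + s • y) i| = 1 + s * σ := by
    intro s hs
    rw [← hn, hσ, Finset.mul_sum, ← Finset.sum_add_distrib]
    refine Finset.sum_congr rfl fun i _ => ?_
    simp only [Pi.add_apply, Pi.smul_apply, smul_eq_mul]
    have hb : x i ≠ 0 → |s * y i| ≤ |x i| := by
      intro hi
      rw [abs_mul]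
      exact (mul_le_mul_of_nonneg_right hs (abs_nonneg _)).trans (hsmall i hi)
    rcases lt_trichotomy (x i) 0 with h | h | h
    · have h1 := hb h.ne
      rw [abs_of_neg h] at h1 ⊢
      have h2 := (abs_le.1 h1).2
      rw [abs_of_nonpos (by linarith), sign_neg h, SignType.coe_neg_one]
      ring
    · rw [h, hsupp i h]
      simp
    · have h1 := hb h.ne'
      rw [abs_of_pos h] at h1 ⊢
      have h2 := (abs_le.1 h1).1
      rw [abs_of_nonneg (by linarith), sign_pos h, SignType.coe_one]
      ring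
  -- a smaller `ε` with `ε |σ| < 1`
  set ε' := min ε (1 / (1 + |σ|)) with hε'
  have hε'pos : 0 < ε' := lt_min hε (by positivity)
  have hlt : ε' * |σ| < 1 := by
    have h1 : ε' * |σ| ≤ 1 / (1 + |σ|) * |σ| :=
      mul_le_mul_of_nonneg_right (min_le_right _ _) (abs_nonneg _)
    have h2 : 1 / (1 + |σ|) * |σ| < 1 := by
      rw [div_mul_eq_mul_div, div_lt_one (by positivity)]
      linarith [abs_nonneg σ]
    linarith
  have hσ1 : |ε' * σ| < 1 := by rwa [abs_mul, abs_of_pos hε'pos]
  obtain ⟨h5, h6⟩ := abs_lt.1 hσ1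
  have hv1 := hval ε' (by rw [abs_of_pos hε'pos]; exact min_le_left _ _)
  have hv2 := hval (-ε') (by rw [abs_neg, abs_of_pos hε'pos]; exact min_le_left _ _)
  have hu : (1 + ε' * σ)⁻¹ • (x + ε' • y) ∈ body L :=
    body_scale (L.add_mem hxb.1 (L.smul_mem _ hy)) (by linarith) hv1.le
  have hv : (1 - ε' * σ)⁻¹ • (x + (-ε') • y) ∈ body L :=
    body_scale (L.add_mem hxb.1 (L.smul_mem _ hy)) (by linarith) (by rw [hv2]; linarith)
  have h7 := hext _ hu _ hv ⟨(1 + ε' * σ) / 2, (1 - ε' * σ) / 2, by linarith, by linarith,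
    by ring, by
      rw [smul_smul, smul_smul]
      have e1 : (1 + ε' * σ) / 2 * (1 + ε' * σ)⁻¹ = 1 / 2 := by
        have : 1 + ε' * σ ≠ 0 := by linarith
        field_simp
      have e2 : (1 - ε' * σ) / 2 * (1 - ε' * σ)⁻¹ = 1 / 2 := by
        have : 1 - ε' * σ ≠ 0 := by linarith
        field_simp
      rw [e1, e2, neg_smul]
      module⟩
  replace h7 := h7.1
  have h8 : x + ε' • y = (1 + ε' * σ) • x := by
    have : 1 + ε' * σ ≠ 0 := by linarith
    rw [← h7, smul_smul, mul_inv_cancel₀ this, one_smul, h7]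
  refine ⟨σ, ?_⟩
  have h9 : ε' • y = ε' • (σ • x) := by
    rw [add_smul, one_smul, mul_smul] at h8
    exact add_left_cancel h8
  have := congrArg (fun z => ε'⁻¹ • z) h9
  simpa [smul_smul, hε'pos.ne'] using this

end Pool.Agent.X156.SR
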