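import Pool.Agent.X156.SR.Basic

/-!
# Lower bound for the number of vertices of a simplicial refinement (Sperner)
-/

set_option autoImplicit false

open Finset

namespace Pool.Agent.X156.SR

section Forms

variable {F : Type*} [AddCommGroup F] [Module ℝ F]

/-- a form extended by zero -/
noncomputable def ext0 {T : Set F} (ω : T → ℝ) (a : F) : ℝ := by
  classical
  exact if h : a ∈ T then ω ⟨a, h⟩ else 0

omit [AddCommGroup F] [Module ℝ F] in
theorem ext0_eq {T : Set F} (ω : T → ℝ) (a : T) : ext0 ω a = ω a := by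
  unfold ext0
  rw [dif_pos a.2]

theorem ext0_comb {T : Set F} (hT : Convex ℝ T) {ω : T → ℝ} (hω : ω ∈ Omega T) {a b : F}
    (ha : a ∈ T) (hb : b ∈ T) {s t : ℝ} (hs : 0 ≤ s) (ht : 0 ≤ t) (hst : s + t = 1) :
    ext0 ω (s • a + t • b) = s * ext0 ω a + t * ext0 ω b := by
  have hc : s • a + t • b ∈ T := hT ha hb hs ht hst
  obtain rfl : t = 1 - s := by linarith
  have := hω.2 ⟨a, ha⟩ ⟨b, hb⟩ ⟨_, hc⟩ s hs (by linarith) rfl
  rw [← ext0_eq ω, ← ext0_eq ω, ← ext0_eq ω] at this
  exact this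

theorem ext0_sum {T : Set F} (hT : Convex ℝ T) {ω : T → ℝ} (hω : ω ∈ Omega T) {κ : Type*}
    [Fintype κ] (w : κ → ℝ) (v : κ → F) (hw : ∀ i, 0 ≤ w i) (hs : ∑ i, w i = 1)
    (hv : ∀ i, v i ∈ T) : ext0 ω (∑ i, w i • v i) = ∑ i, w i * ext0 ω (v i) := by
  have h1 : ConvexOn ℝ T (ext0 ω) := ⟨hT, fun a ha b hb s t hs ht hst => by
    rw [ext0_comb hT hω ha hb hs ht hst, smul_eq_mul, smul_eq_mul]⟩
  have h2 : ConcaveOn ℝ T (ext0 ω) := ⟨hT, fun a ha b hb s t hs ht hst => by
    rw [ext0_comb hT hω ha hb hs ht hst, smul_eq_mul, smul_eq_mul]⟩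
  exact le_antisymm (h1.map_sum_le (fun i _ => hw i) hs fun i _ => hv i)
    (h2.le_map_sum (fun i _ => hw i) hs fun i _ => hv i)

theorem mem_convexHull_range {κ : Type*} [Fintype κ] {v : κ → F} {a : F}
    (h : a ∈ convexHull ℝ (Set.range v)) :
    ∃ w : κ → ℝ, (∀ i, 0 ≤ w i) ∧ ∑ i, w i = 1 ∧ ∑ i, w i • v i = a := by
  classical
  rw [convexHull_range_eq_exists_affineCombination] at h
  obtain ⟨s, w, hw, hs, rfl⟩ := h
  refine ⟨fun i => if i ∈ s then w i else 0, fun i => ?_, ?_, ?_⟩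
  · dsimp only
    split_ifs with hi
    · exact hw i hi
    · exact le_rfl
  · rw [← hs, ← Finset.sum_filter]
    congr 1
    ext i
    simp
  · rw [Finset.affineCombination_eq_linear_combination s v w hs]
    simp only [ite_smul, zero_smul]
    rw [← Finset.sum_filter]
    congr 1
    ext i
    simp

end Forms

section Lower

variable {E : Type*} [NormedAddCommGroup E] [NormedSpace ℝ E] [FiniteDimensional ℝ E]

omit [FiniteDimensional ℝ E] in
/-- For two different vertices of a polytope there is a form that vanishes at the first one but not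
at the second one. -/
theorem exists_form {C : Set E} (hC : IsPolytope C) {x y : E} (hx : x ∈ C.extremePoints ℝ)
    (hy : y ∈ C.extremePoints ℝ) (hxy : x ≠ y) :
    ∃ η ∈ Omega C, (∀ c : C, (c : E) = y → η c = 0) ∧ ∀ c : C, (c : E) = x → 0 < η c := by
  obtain ⟨_, hcomp, hconv, hfin⟩ := hC
  set X := C.extremePoints ℝ with hX
  have hKM : C = convexHull ℝ X := by
    have h1 := closure_convexHull_extremePoints hcomp hconv
    rw [← hX, (hfin.isCompact_convexHull (𝕜 := ℝ)).isClosed.closure_eq] at h1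
    exact h1.symm
  have hyK : y ∉ convexHull ℝ (X \ {y}) :=
    convexIndependent_set_iff_notMem_convexHull_sdiff.1 hconv.convexIndependent_extremePoints y hy
  have hclosed : IsClosed (convexHull ℝ (X \ {y})) :=
    ((hfin.subset Set.sdiff_subset).isCompact_convexHull (𝕜 := ℝ)).isClosed
  obtain ⟨φ, u, hu, hφ⟩ := geometric_hahn_banach_point_closed (convex_convexHull ℝ _) hclosed hyK
  have hfx : φ y < φ x :=
    hu.trans (hφ x (subset_convexHull ℝ _ ⟨hx, hxy⟩))
  have hge : ∀ z ∈ C, φ y ≤ φ z := by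
    intro z hz
    rw [hKM] at hz
    have : convexHull ℝ X ⊆ {z | φ y ≤ φ z} := by
      refine convexHull_min (fun z hz => ?_) (convex_halfSpace_ge φ.toLinearMap.isLinear _)
      by_cases h : z = y
      · subst h; exact le_refl (φ z)
      · exact (hu.trans (hφ z (subset_convexHull ℝ _ ⟨hz, h⟩))).le
    exact this hz
  obtain ⟨M, hM, hmax⟩ := hcomp.exists_isMaxOn ⟨x, hx.1⟩ φ.continuous.continuousOn
  have hd : 0 < φ M - φ y := by
    have : φ x ≤ φ M := hmax hx.1
    linarith
  refine ⟨fun c => (φ c - φ y) / (φ M - φ y), ⟨fun a => ⟨?_, ?_⟩, ?_⟩, ?_, ?_⟩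
  · exact div_nonneg (by linarith [hge a a.2]) hd.le
  · rw [div_le_one hd]
    have : φ a ≤ φ M := hmax a.2
    linarith
  · intro a b c t _ _ hc
    dsimp only
    rw [hc, map_add, map_smul, map_smul, smul_eq_mul, smul_eq_mul]
    field_simp
    ring
  · intro c hc
    dsimp only
    rw [hc, sub_self, zero_div]
  · intro c hc
    dsimp only
    rw [hc]
    exact div_pos (by linarith) hd

variable {F : Type*} [AddCommGroup F] [Module ℝ F]

/-- **Sperner bound.** -/
theorem card_le_choose {C : Set E} (hC : IsPolytope C) {n : ℕ} {v : Fin (n + 1) → F}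
    {f : F →. E} {g : (convexHull ℝ (Set.range v) → ℝ) →. (C → ℝ)}
    (h : IsRefinement C (convexHull ℝ (Set.range v)) f g) :
    (C.extremePoints ℝ).ncard ≤ (n + 1).choose ((n + 1) / 2) := by
  classical
  set T := convexHull ℝ (Set.range v) with hT
  have hTc : Convex ℝ T := convex_convexHull ℝ _
  have hvT : ∀ i, v i ∈ T := fun i => subset_convexHull ℝ _ ⟨i, rfl⟩
  have hfin := hC.2.2.2
  -- preimages and supports
  have hex : ∀ x : E, ∃ (a : F) (w : Fin (n + 1) → ℝ), x ∈ C → (x ∈ f a ∧ (∀ i, 0 ≤ w i) ∧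
      ∑ i, w i = 1 ∧ ∑ i, w i • v i = a) := by
    intro x
    by_cases hx : x ∈ C
    · obtain ⟨a, ha⟩ := h.f_map.2.2 x hx
      have haT := (h.f_map.1 a x ha).1
      obtain ⟨w, hw⟩ := mem_convexHull_range haT
      exact ⟨a, w, fun _ => ⟨ha, hw⟩⟩
    · exact ⟨0, 0, fun h => absurd h hx⟩
  choose a w hw using hex
  let S : E → Finset (Fin (n + 1)) := fun x => univ.filter fun i => w x i ≠ 0
  have hanti : ∀ x ∈ C.extremePoints ℝ, ∀ y ∈ C.extremePoints ℝ, S x ⊆ S y → x = y := by
    intro x hx y hy hS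
    by_contra hxy
    obtain ⟨η, hη, hη0, hη1⟩ := exists_form hC hx hy hxy
    obtain ⟨ω, hω⟩ := h.g_map.2.2 η hη
    have hωT := (h.g_map.1 ω η hω).1
    have hvalue : ∀ z (hz : z ∈ C), η ⟨z, hz⟩ = ∑ i, w z i * ext0 ω (v i) := by
      intro z hz
      obtain ⟨h1, h2, h3, h4⟩ := hw z hz
      have haT := (h.f_map.1 _ _ h1).1
      have h5 := h.dual ⟨a z, haT⟩ ⟨z, hz⟩ ω η h1 hω
      rw [h5, ← ext0_eq ω]
      change ext0 ω (a z) = _
      rw [← ext0_sum hTc hωT (w z) v h2 h3 hvT, h4]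
    have hy0 := hη0 ⟨y, hy.1⟩ rfl
    rw [hvalue y hy.1] at hy0
    have hnn : ∀ i, 0 ≤ ext0 ω (v i) := by
      intro i
      have := (hωT.1 ⟨v i, hvT i⟩).1
      rw [← ext0_eq ω] at this
      exact this
    have hterm := (Finset.sum_eq_zero_iff_of_nonneg fun i _ =>
      mul_nonneg ((hw y hy.1).2.1 i) (hnn i)).1 hy0
    have hx0 := hη1 ⟨x, hx.1⟩ rfl
    rw [hvalue x hx.1] at hx0
    have : ∑ i, w x i * ext0 ω (v i) = 0 := by
      refine Finset.sum_eq_zero fun i hi => ?_
      by_cases hxi : w x i = 0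
      · rw [hxi, zero_mul]
      · have hyi : w y i ≠ 0 := by
          have : i ∈ S y := hS (by simp [S, hxi])
          simpa [S] using this
        rcases mul_eq_zero.1 (hterm i hi) with h6 | h6
        · exact absurd h6 hyi
        · rw [h6, mul_zero]
    linarith
  have hinj : Set.InjOn S (C.extremePoints ℝ) := fun x hx y hy hxy =>
    hanti x hx y hy (by rw [hxy])
  have hcoe : ((hfin.toFinset.image S : Finset (Finset (Fin (n + 1)))) : Set _) =
      S '' (C.extremePoints ℝ) := by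
    rw [Finset.coe_image, Set.Finite.coe_toFinset]
  have hA : IsAntichain (· ⊆ ·)
      ((hfin.toFinset.image S : Finset (Finset (Fin (n + 1)))) : Set (Finset (Fin (n + 1)))) := by
    rw [hcoe]
    rintro _ ⟨x, hx, rfl⟩ _ ⟨y, hy, rfl⟩ hne hsub
    exact hne (by rw [hanti x hx y hy hsub])
  have h1 := hA.sperner
  rw [Fintype.card_fin] at h1
  calc (C.extremePoints ℝ).ncard = (S '' (C.extremePoints ℝ)).ncard := hinj.ncard_image.symm
    _ = (hfin.toFinset.image S).card := by rw [← hcoe, Set.ncard_coe_finset]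
    _ ≤ _ := h1

end Lower

end Pool.Agent.X156.SR
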