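import Pool.Agent.X156.SR.Count

/-!
# Uniform subspaces from the moment curve
-/

set_option autoImplicit false

open Finset

namespace Pool.Agent.X156.SR

/-- the vectors orthogonal to the first `r` power vectors -/
def mom (k r : ℕ) : Submodule ℝ (Fin k → ℝ) where
  carrier := {x | ∀ j < r, ∑ i, x i * (i : ℝ) ^ j = 0}
  add_mem' {x y} hx hy := by
    intro j hj
    have : ∑ i, (x + y) i * (i : ℝ) ^ j =
        ∑ i, x i * (i : ℝ) ^ j + ∑ i, y i * (i : ℝ) ^ j := by
      rw [← Finset.sum_add_distrib]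
      exact Finset.sum_congr rfl fun i _ => by rw [Pi.add_apply]; ring
    rw [this, hx j hj, hy j hj, add_zero]
  zero_mem' := by
    intro j _
    simp
  smul_mem' t x hx := by
    intro j hj
    have : ∑ i, (t • x) i * (i : ℝ) ^ j = t * ∑ i, x i * (i : ℝ) ^ j := by
      rw [Finset.mul_sum]
      exact Finset.sum_congr rfl fun i _ => by rw [Pi.smul_apply, smul_eq_mul]; ring
    rw [this, hx j hj, mul_zero]

theorem mem_mom {k r : ℕ} {x : Fin k → ℝ} :
    x ∈ mom k r ↔ ∀ j < r, ∑ i, x i * (i : ℝ) ^ j = 0 := Iff.rfl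

theorem mom_eval {k r : ℕ} {x : Fin k → ℝ} (hx : x ∈ mom k r) (p : Polynomial ℝ)
    (hp : p.natDegree < r) : ∑ i, x i * p.eval (i : ℝ) = 0 := by
  have h1 : ∀ i : Fin k, x i * p.eval (i : ℝ) =
      ∑ j ∈ range r, p.coeff j * (x i * (i : ℝ) ^ j) := by
    intro i
    rw [Polynomial.eval_eq_sum_range' hp, Finset.mul_sum]
    exact Finset.sum_congr rfl fun j _ => by ring
  rw [Finset.sum_congr rfl fun i _ => h1 i, Finset.sum_comm]
  refine Finset.sum_eq_zero fun j hj => ?_
  rw [← Finset.mul_sum, hx j (Finset.mem_range.1 hj), mul_zero]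

theorem mom_low {k r : ℕ} {x : Fin k → ℝ} (hx : x ∈ mom k r) (h0 : x ≠ 0) :
    r + 1 ≤ (supp x).card := by
  by_contra hcon
  have hne : (supp x).Nonempty := by
    obtain ⟨i, hi⟩ := Function.ne_iff.1 h0
    exact ⟨i, mem_supp.2 hi⟩
  obtain ⟨i0, hi0⟩ := hne
  let p : Polynomial ℝ := ∏ i ∈ (supp x).erase i0, (Polynomial.X - Polynomial.C (i : ℝ))
  have hpos : 0 < (supp x).card := Finset.card_pos.2 ⟨i0, hi0⟩
  have hdeg : p.natDegree < r := by
    simp only [p]
    rw [Polynomial.natDegree_prod_of_monic _ _ fun i _ => Polynomial.monic_X_sub_C _]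
    simp only [Polynomial.natDegree_X_sub_C, Finset.sum_const, smul_eq_mul, mul_one]
    rw [Finset.card_erase_of_mem hi0]
    omega
  have h1 := mom_eval hx p hdeg
  have h2 : ∑ i, x i * p.eval (i : ℝ) = x i0 * p.eval (i0 : ℝ) := by
    refine Finset.sum_eq_single i0 (fun i _ hi => ?_) (fun h => absurd (Finset.mem_univ _) h)
    by_cases hxi : x i = 0
    · rw [hxi, zero_mul]
    · have : p.eval (i : ℝ) = 0 := by
        simp only [p]
        rw [Polynomial.eval_prod]
        exact Finset.prod_eq_zero (Finset.mem_erase.2 ⟨hi, mem_supp.2 hxi⟩) (by simp)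
      rw [this, mul_zero]
  rw [h2] at h1
  rcases mul_eq_zero.1 h1 with h3 | h3
  · exact mem_supp.1 hi0 h3
  · simp only [p] at h3
    rw [Polynomial.eval_prod, Finset.prod_eq_zero_iff] at h3
    obtain ⟨i, hi, h4⟩ := h3
    rw [Finset.mem_erase] at hi
    apply hi.1
    simp only [Polynomial.eval_sub, Polynomial.eval_X, Polynomial.eval_C] at h4
    have h5 : ((i0 : ℕ) : ℝ) = ((i : ℕ) : ℝ) := by linarith
    exact (Fin.ext (Nat.cast_injective h5)).symm

theorem mom_ex {k r : ℕ} (S : Finset (Fin k)) (hS : S.card = r + 1) :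
    ∃ x ∈ mom k r, supp x = S := by
  classical
  let Φ : (S → ℝ) →ₗ[ℝ] (Fin r → ℝ) :=
    { toFun := fun z j => ∑ i : S, z i * ((i : Fin k) : ℝ) ^ (j : ℕ)
      map_add' := fun z w => by
        funext j
        rw [Pi.add_apply, ← Finset.sum_add_distrib]
        exact Finset.sum_congr rfl fun i _ => by rw [Pi.add_apply]; ring
      map_smul' := fun t z => by
        funext j
        rw [RingHom.id_apply, Pi.smul_apply, smul_eq_mul, Finset.mul_sum]
        exact Finset.sum_congr rfl fun i _ => by rw [Pi.smul_apply, smul_eq_mul]; ring }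
  have hker : LinearMap.ker Φ ≠ ⊥ := by
    apply LinearMap.ker_ne_bot_of_finrank_lt
    rw [Module.finrank_fintype_fun_eq_card, Module.finrank_fintype_fun_eq_card,
      Fintype.card_coe, hS, Fintype.card_fin]
    omega
  obtain ⟨z, hz, hz0⟩ := (Submodule.ne_bot_iff _).1 hker
  let x : Fin k → ℝ := fun i => if h : i ∈ S then z ⟨i, h⟩ else 0
  have hxS : ∀ i : S, x i = z i := fun i => by simp [x]
  have hsub : supp x ⊆ S := by
    intro i hi
    rw [mem_supp] at hi
    by_contra h
    exact hi (by simp [x, h])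
  have hx : x ∈ mom k r := by
    intro j hj
    have h1 : ∑ i, x i * (i : ℝ) ^ j = ∑ i ∈ S, x i * (i : ℝ) ^ j := by
      refine (Finset.sum_subset (Finset.subset_univ _) fun i _ hi => ?_).symm
      have : x i = 0 := by simp [x, hi]
      rw [this, zero_mul]
    rw [h1, ← Finset.sum_coe_sort]
    have h2 := congrFun (LinearMap.mem_ker.1 hz) ⟨j, hj⟩
    change ∑ i : S, z i * ((i : Fin k) : ℝ) ^ j = 0 at h2
    rw [← h2]
    exact Finset.sum_congr rfl fun i _ => by rw [hxS]
  have hx0 : x ≠ 0 := by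
    intro h
    apply hz0
    funext i
    rw [← hxS, h]
    rfl
  refine ⟨x, hx, Finset.eq_of_subset_of_card_le hsub ?_⟩
  rw [hS]
  exact mom_low hx hx0

theorem mom_uniform (k r : ℕ) : Uniform (mom k r) r :=
  ⟨fun _ hx h0 => mom_low hx h0, fun S hS => mom_ex S hS⟩

theorem mom_ncard {k r : ℕ} (h : r + 1 ≤ k) :
    ((body (mom k r)).extremePoints ℝ).ncard = 2 * k.choose (r + 1) := by
  have := (mom_uniform k r).ncard (by rw [Fintype.card_fin]; exact h)
  rwa [Fintype.card_fin] at this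

end Pool.Agent.X156.SR
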