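import Pool.Agent.X156.SR.Refine
import Pool.Agent.X156.SR.Vander
import Pool.Agent.X156.SR.Lower

/-!
# Simplicial refinements: preparations for the results
-/

set_option autoImplicit false

open Finset

namespace Pool.Agent.X156.SR

section General

variable {E F : Type*} [AddCommGroup E] [Module ℝ E] [AddCommGroup F] [Module ℝ F]

/-- In a simplex the midpoints of different pairs of vertices are different. -/
theorem not_isSimplex_of_add {C : Set E} {x x' y y' : E} (hx : x ∈ C.extremePoints ℝ)
    (hx' : x' ∈ C.extremePoints ℝ) (hy : y ∈ C.extremePoints ℝ) (hy' : y' ∈ C.extremePoints ℝ)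
    (h : x + x' = y + y') (h1 : x ≠ y) (h2 : x ≠ y') : ¬ IsSimplex C := by
  classical
  rintro ⟨n, v, hv, rfl⟩
  obtain ⟨i, rfl⟩ := extremePoints_convexHull_subset hx
  obtain ⟨j, rfl⟩ := extremePoints_convexHull_subset hx'
  obtain ⟨k, rfl⟩ := extremePoints_convexHull_subset hy
  obtain ⟨l, rfl⟩ := extremePoints_convexHull_subset hy'
  rw [affineIndependent_iff] at hv
  let w : Fin (n + 1) → ℝ := fun t => (if t = i then 1 else 0) + (if t = j then 1 else 0) -
    (if t = k then 1 else 0) - (if t = l then 1 else 0)
  have h3 := hv univ w (by simp [w, Finset.sum_add_distrib, Finset.sum_sub_distrib]) (by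
    simp only [w, sub_smul, add_smul, ite_smul, one_smul, zero_smul]
    rw [Finset.sum_sub_distrib, Finset.sum_sub_distrib, Finset.sum_add_distrib]
    simp only [Finset.sum_ite_eq', Finset.mem_univ, if_true]
    rw [h]
    abel) i (Finset.mem_univ i)
  have h4 : i ≠ k := fun h => h1 (by rw [h])
  have h5 : i ≠ l := fun h => h2 (by rw [h])
  simp only [w, if_true, if_neg h4, if_neg h5] at h3
  split_ifs at h3 <;> norm_num at h3

theorem extremePoints_stdSimplex (κ : Type*) [Fintype κ] :
    ((stdSimplex ℝ κ).extremePoints ℝ).ncard = Fintype.card κ := by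
  classical
  have h : (stdSimplex ℝ κ).extremePoints ℝ = Set.range fun i : κ => (Pi.single i 1 : κ → ℝ) := by
    apply Set.Subset.antisymm
    · rw [← convexHull_rangle_single_eq_stdSimplex]
      exact extremePoints_convexHull_subset
    · rintro _ ⟨i, rfl⟩
      rw [mem_extremePoints]
      refine ⟨single_mem_stdSimplex ℝ i, ?_⟩
      have key : ∀ u ∈ stdSimplex ℝ κ, ∀ v ∈ stdSimplex ℝ κ, ∀ a b : ℝ, 0 < a → 0 < b →
          a + b = 1 → a • u + b • v = Pi.single i 1 → u = Pi.single i 1 := by
        intro u hu v hv a b ha hb hab h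
        have h1 : ∀ j, j ≠ i → u j = 0 := by
          intro j hj
          have h2 := congrFun h j
          rw [Pi.single_eq_of_ne hj, Pi.add_apply, Pi.smul_apply, Pi.smul_apply, smul_eq_mul,
            smul_eq_mul] at h2
          have h3 := mul_nonneg ha.le (hu.1 j)
          have h4 := mul_nonneg hb.le (hv.1 j)
          have h5 : a * u j = 0 := by linarith
          rcases mul_eq_zero.1 h5 with h6 | h6
          · exact absurd h6 ha.ne'
          · exact h6
        have h2 : u i = 1 := by
          rw [← hu.2]
          exact (Finset.sum_eq_single i (fun j _ hj => h1 j hj)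
            (fun h => absurd (Finset.mem_univ i) h)).symm
        funext j
        by_cases hj : j = i
        · subst hj
          rw [h2, Pi.single_eq_same]
        · rw [h1 j hj, Pi.single_eq_of_ne hj]
      intro u hu v hv h
      obtain ⟨a, b, ha, hb, hab, h⟩ := h
      exact ⟨key u hu v hv a b ha hb hab h,
        key v hv u hu b a hb ha (by linarith) (by rw [add_comm]; exact h)⟩
  have hinj : Function.Injective fun i : κ => (Pi.single i 1 : κ → ℝ) := by
    intro i j hij
    by_contra hne
    have := congrFun hij i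
    dsimp only at this
    rw [Pi.single_eq_same, Pi.single_eq_of_ne hne] at this
    exact one_ne_zero this
  rw [h, ← Set.image_univ, Set.ncard_image_of_injective _ hinj, Set.ncard_univ,
    Nat.card_eq_fintype_card]

/-- There is no partial onto affine map from a simplex to a simplex with more vertices. -/
theorem card_le_of_onto {m n : ℕ} {v : Fin n → F} {e : Fin m → E} (he : AffineIndependent ℝ e)
    {f : F →. E}
    (hf : IsPartialOntoAffine (convexHull ℝ (Set.range v)) (convexHull ℝ (Set.range e)) f) :
    m ≤ n := by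
  classical
  have hex : ∀ i, ∃ a, e i ∈ f a := fun i =>
    hf.2.2 _ (subset_convexHull ℝ _ ⟨i, rfl⟩)
  choose a ha using hex
  -- the preimages are affinely independent
  have hconv : ∀ I : Set (Fin m), ∀ z ∈ convexHull ℝ (a '' I), ∃ y ∈ convexHull ℝ (e '' I),
      y ∈ f z := by
    intro I z hz
    have hsub : convexHull ℝ (a '' I) ⊆ {z | ∃ y ∈ convexHull ℝ (e '' I), y ∈ f z} := by
      refine convexHull_min ?_ ?_
      · rintro _ ⟨i, hi, rfl⟩
        exact ⟨e i, subset_convexHull ℝ _ ⟨i, hi, rfl⟩, ha i⟩
      · rintro z ⟨y, hy, hyz⟩ z' ⟨y', hy', hyz'⟩ s t hs ht hst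
        obtain rfl : t = 1 - s := by linarith
        exact ⟨s • y + (1 - s) • y', convex_convexHull ℝ _ hy hy' hs ht hst,
          hf.2.1 z z' y y' hyz hyz' s hs (by linarith)⟩
    exact hsub hz
  have hind : AffineIndependent ℝ a := by
    by_contra hcon
    obtain ⟨I, z, hz1, hz2⟩ := Convex.radon_partition hcon
    obtain ⟨y, hy, hyz⟩ := hconv I z hz1
    obtain ⟨y', hy', hyz'⟩ := hconv Iᶜ z hz2
    have h1 : y = y' := Part.mem_unique hyz hyz'
    subst h1
    have h3 := he.affineSpan_disjoint_of_disjoint (s1 := I) (s2 := Iᶜ) disjoint_compl_right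
    exact Set.disjoint_left.1 h3 (convexHull_subset_affineSpan _ hy)
      (convexHull_subset_affineSpan _ hy')
  have hT : ∀ i, a i ∈ affineSpan ℝ (Set.range v) := by
    intro i
    exact convexHull_subset_affineSpan _ (hf.1 _ _ (ha i)).1
  rcases Nat.eq_zero_or_pos m with rfl | hm
  · exact Nat.zero_le _
  have hn : 0 < n := by
    rcases Nat.eq_zero_or_pos n with rfl | hn
    · have := (hf.1 _ _ (ha ⟨0, hm⟩)).1
      rw [Set.range_eq_empty, convexHull_empty] at this
      exact absurd this (Set.notMem_empty _)
    · exact hn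
  have : Nonempty (Fin n) := ⟨⟨0, hn⟩⟩
  have h1 := hind.card_le_finrank_succ
  have h2 : vectorSpan ℝ (Set.range a) ≤ vectorSpan ℝ (Set.range v) := by
    rw [← direction_affineSpan, ← direction_affineSpan]
    refine AffineSubspace.direction_le (affineSpan_le.2 ?_)
    rintro _ ⟨i, rfl⟩
    exact hT i
  have : FiniteDimensional ℝ (vectorSpan ℝ (Set.range v)) :=
    finiteDimensional_vectorSpan_range ℝ v
  have h3 := Submodule.finrank_mono h2
  have h4 := finrank_vectorSpan_range_add_one_le ℝ v
  rw [Fintype.card_fin] at h1 h4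
  omega

/-- The dimension of a simplex. -/
theorem finrank_of_isSimplex {n : ℕ} {v : Fin (n + 1) → F} (hv : AffineIndependent ℝ v) :
    Module.finrank ℝ (vectorSpan ℝ (convexHull ℝ (Set.range v))) = n := by
  rw [← direction_affineSpan, affineSpan_convexHull, direction_affineSpan]
  exact hv.finrank_vectorSpan (Fintype.card_fin _)

theorem finrank_stdSimplex (κ : Type*) [Fintype κ] [Nonempty κ] :
    Module.finrank ℝ (vectorSpan ℝ (stdSimplex ℝ κ)) + 1 = Fintype.card κ := by
  classical
  obtain ⟨n, hn⟩ := Nat.exists_eq_succ_of_ne_zero (Fintype.card_ne_zero (α := κ))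
  have hli : LinearIndependent ℝ (fun i : κ => (Pi.single i 1 : κ → ℝ)) := by
    have := (Pi.basisFun ℝ κ).linearIndependent
    convert this using 1
    funext i
    simp
  rw [← convexHull_rangle_single_eq_stdSimplex, ← direction_affineSpan, affineSpan_convexHull,
    direction_affineSpan, hli.affineIndependent.finrank_vectorSpan hn, hn]

end General

section Body

variable {ι : Type*} [Fintype ι]

theorem neg_extreme {L : Submodule ℝ (ι → ℝ)} {x : ι → ℝ} (hx : x ∈ (body L).extremePoints ℝ) :
    -x ∈ (body L).extremePoints ℝ := by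
  rw [mem_extremePoints] at hx ⊢
  refine ⟨body_neg hx.1, fun u hu v hv h => ?_⟩
  obtain ⟨a, b, ha, hb, hab, h⟩ := h
  have := hx.2 (-u) (body_neg hu) (-v) (body_neg hv) ⟨a, b, ha, hb, hab, by
    rw [smul_neg, smul_neg, ← neg_add, h, neg_neg]⟩
  exact ⟨neg_eq_iff_eq_neg.1 this.1, neg_eq_iff_eq_neg.1 this.2⟩

theorem body_not_isSimplex {L : Submodule ℝ (ι → ℝ)}
    (h : 2 < ((body L).extremePoints ℝ).ncard) : ¬ IsSimplex (body L) := by
  obtain ⟨x, hx⟩ : ((body L).extremePoints ℝ).Nonempty := by
    rw [← Set.ncard_pos (body_extreme_finite L)]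
    omega
  have h2 : ({x, -x} : Set (ι → ℝ)).ncard < ((body L).extremePoints ℝ).ncard :=
    lt_of_le_of_lt ((Set.ncard_insert_le _ _).trans (by rw [Set.ncard_singleton])) h
  obtain ⟨y, hy, hyx⟩ := Set.exists_mem_notMem_of_ncard_lt_ncard h2 (Set.toFinite _)
  rw [Set.mem_insert_iff, Set.mem_singleton_iff, not_or] at hyx
  refine not_isSimplex_of_add hx (neg_extreme hx) hy (neg_extreme hy) (by simp)
    (fun h => hyx.1 h.symm) (fun h => hyx.2 ?_)
  rw [h, neg_neg]

/-- The dimension of a section. -/
theorem vectorSpan_body (L : Submodule ℝ (ι → ℝ)) : vectorSpan ℝ (body L) = L := by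
  apply le_antisymm
  · rw [vectorSpan_def, Submodule.span_le]
    rintro _ ⟨x, hx, y, hy, rfl⟩
    exact L.sub_mem hx.1 hy.1
  · intro x hx
    have h0 : 0 ≤ ∑ i, |x i| := Finset.sum_nonneg fun _ _ => abs_nonneg _
    have h1 : (1 + ∑ i, |x i|)⁻¹ • x ∈ body L := body_scale hx (by positivity) (by linarith)
    have h2 : (1 + ∑ i, |x i|)⁻¹ • x - 0 ∈ vectorSpan ℝ (body L) :=
      vsub_mem_vectorSpan ℝ h1 (body_zero L)
    rw [sub_zero] at h2
    have h3 := Submodule.smul_mem _ (1 + ∑ i, |x i|) h2
    have h4 : 1 + ∑ i, |x i| ≠ 0 := by positivity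
    rwa [smul_smul, mul_inv_cancel₀ h4, one_smul] at h3

end Body

theorem finrank_mom {k r : ℕ} (h : r ≤ k) : Module.finrank ℝ (mom k r) = k - r := by
  apply le_antisymm
  · -- restrict to the last coordinates
    let ρ : mom k r →ₗ[ℝ] (Fin (k - r) → ℝ) :=
      { toFun := fun x j => (x : Fin k → ℝ) ⟨j + r, by omega⟩
        map_add' := fun x y => rfl
        map_smul' := fun t x => rfl }
    have hinj : Function.Injective ρ := by
      rw [← LinearMap.ker_eq_bot, LinearMap.ker_eq_bot']
      intro x hx
      by_contra h0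
      have h0' : (x : Fin k → ℝ) ≠ 0 := fun h => h0 (Subtype.ext h)
      have h1 := mom_low x.2 h0'
      have h2 : supp (x : Fin k → ℝ) ⊆ univ.filter fun i : Fin k => (i : ℕ) < r := by
        intro i hi
        rw [mem_supp] at hi
        rw [Finset.mem_filter]
        refine ⟨Finset.mem_univ _, ?_⟩
        by_contra hir
        apply hi
        have := congrFun hx ⟨(i : ℕ) - r, by omega⟩
        change (x : Fin k → ℝ) ⟨(i : ℕ) - r + r, _⟩ = 0 at this
        rw [← this]
        refine congrArg _ (Fin.ext ?_)
        change (i : ℕ) = (i : ℕ) - r + r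
        omega
      have h3 := Finset.card_le_card h2
      have h4 : (univ.filter fun i : Fin k => (i : ℕ) < r).card ≤ r := by
        have h5 := Finset.card_le_card_of_injOn (s := univ.filter fun i : Fin k => (i : ℕ) < r)
          (t := Finset.range r) (fun i => (i : ℕ)) (fun i hi => by simpa using hi)
          (fun i _ j _ hij => Fin.ext hij)
        rwa [Finset.card_range] at h5
      omega
    have := LinearMap.finrank_le_finrank_of_injective hinj
    rwa [Module.finrank_fintype_fun_eq_card, Fintype.card_fin] at this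
  · let Φ : (Fin k → ℝ) →ₗ[ℝ] (Fin r → ℝ) :=
      { toFun := fun z j => ∑ i, z i * (i : ℝ) ^ (j : ℕ)
        map_add' := fun z w => by
          funext j
          rw [Pi.add_apply, ← Finset.sum_add_distrib]
          exact Finset.sum_congr rfl fun i _ => by rw [Pi.add_apply]; ring
        map_smul' := fun t z => by
          funext j
          rw [RingHom.id_apply, Pi.smul_apply, smul_eq_mul, Finset.mul_sum]
          exact Finset.sum_congr rfl fun i _ => by rw [Pi.smul_apply, smul_eq_mul]; ring }
    have h1 : LinearMap.ker Φ = mom k r := by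
      ext x
      rw [LinearMap.mem_ker, mem_mom]
      constructor
      · intro h j hj
        exact congrFun h ⟨j, hj⟩
      · intro h
        funext j
        exact h j j.2
    have h2 := LinearMap.finrank_range_add_finrank_ker Φ
    have h3 : Module.finrank ℝ (LinearMap.range Φ) ≤ r := by
      have := Submodule.finrank_le (LinearMap.range Φ)
      rwa [Module.finrank_fintype_fun_eq_card, Fintype.card_fin] at this
    rw [h1, Module.finrank_fintype_fun_eq_card, Fintype.card_fin] at h2
    omega

end Pool.Agent.X156.SR
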