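import Pool.Agent.X156.SR.Final

/-!
# The projection refinement and the least dimension
-/

set_option autoImplicit false

open Finset

namespace Pool.Agent.X156.SR

/-- The least dimension of `T` over all simplicial refinements `(T, Ω T, f, g)` of `(C, Ω C)`. -/
noncomputable def leastDim {E : Type*} [AddCommGroup E] [Module ℝ E] (C : Set E) : ℕ :=
  sInf {n | ∃ (κ : Type) (_ : Fintype κ) (T : Set (κ → ℝ)) (f : (κ → ℝ) →. E)
    (g : (T → ℝ) →. (C → ℝ)), IsRefinement C T f g ∧ Module.finrank ℝ (vectorSpan ℝ T) = n}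

theorem leastDim_le {E : Type*} [AddCommGroup E] [Module ℝ E] {C : Set E} {κ : Type} [Fintype κ]
    {T : Set (κ → ℝ)} {f : (κ → ℝ) →. E} {g : (T → ℝ) →. (C → ℝ)} (h : IsRefinement C T f g) :
    leastDim C ≤ Module.finrank ℝ (vectorSpan ℝ T) :=
  Nat.sInf_le ⟨κ, inferInstance, T, f, g, h, rfl⟩

variable {E : Type*} [NormedAddCommGroup E] [NormedSpace ℝ E]

/-- the projection of a simplex -/
def proj {κ : Type*} [Fintype κ] (c : κ → E) : (κ → ℝ) →. E :=
  fun a => ⟨a ∈ stdSimplex ℝ κ, fun _ => ∑ i, a i • c i⟩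

theorem mem_proj {κ : Type*} [Fintype κ] {c : κ → E} {a : κ → ℝ} {x : E} :
    x ∈ proj c a ↔ a ∈ stdSimplex ℝ κ ∧ x = ∑ i, a i • c i := by
  constructor
  · rintro ⟨h, rfl⟩
    exact ⟨h, rfl⟩
  · rintro ⟨h, rfl⟩
    exact ⟨h, rfl⟩

theorem eq_convexHull {C : Set E} (hC : IsPolytope C) : C = convexHull ℝ (C.extremePoints ℝ) := by
  obtain ⟨_, hcomp, hconv, hfin⟩ := hC
  have h1 := closure_convexHull_extremePoints hcomp hconv
  rw [(hfin.isCompact_convexHull (𝕜 := ℝ)).isClosed.closure_eq] at h1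
  exact h1.symm

theorem proj_partial {C : Set E} (hC : IsPolytope C) {m : ℕ} {c : Fin m → E}
    (hc : Set.range c = C.extremePoints ℝ) :
    IsPartialOntoAffine (stdSimplex ℝ (Fin m)) C (proj c) := by
  have hcC : ∀ i, c i ∈ C := fun i => by
    have : c i ∈ C.extremePoints ℝ := hc ▸ ⟨i, rfl⟩
    exact this.1
  refine ⟨fun a x h => ?_, fun a b x y hx hy t h0 h1 => ?_, fun x hx => ?_⟩
  · rw [mem_proj] at h
    obtain ⟨h1, rfl⟩ := h
    exact ⟨h1, hC.2.2.1.sum_mem (fun i _ => h1.1 i) h1.2 fun i _ => hcC i⟩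
  · rw [mem_proj] at hx hy ⊢
    obtain ⟨h2, rfl⟩ := hx
    obtain ⟨h3, rfl⟩ := hy
    refine ⟨convex_stdSimplex ℝ _ h2 h3 h0 (by linarith) (by ring), ?_⟩
    rw [Finset.smul_sum, Finset.smul_sum, ← Finset.sum_add_distrib]
    refine Finset.sum_congr rfl fun i _ => ?_
    simp only [Pi.add_apply, Pi.smul_apply, smul_eq_mul, add_smul, mul_smul]
  · rw [eq_convexHull hC, ← hc] at hx
    obtain ⟨w, hw0, hw1, hw⟩ := mem_convexHull_range hx
    exact ⟨w, mem_proj.2 ⟨⟨hw0, hw1⟩, hw.symm⟩⟩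

theorem proj_refinement {C : Set E} (hC : IsPolytope C) {m : ℕ} {c : Fin m → E}
    (hc : Set.range c = C.extremePoints ℝ) (hm : 0 < m) :
    IsRefinement C (stdSimplex ℝ (Fin m)) (proj c)
      (pull C (stdSimplex ℝ (Fin m)) (proj c)) := by
  have : Nonempty (Fin m) := ⟨⟨0, hm⟩⟩
  have hp := proj_partial hC hc
  refine isRefinement_pull (isSimplex_stdSimplex _) hp fun η hη => ?_
  have hmem : ∀ a : stdSimplex ℝ (Fin m), ∑ i, a.1 i • c i ∈ C := fun a =>
    (hp.1 a.1 _ (mem_proj.2 ⟨a.2, rfl⟩)).2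
  refine ⟨fun a => η ⟨_, hmem a⟩, ⟨fun a => hη.1 _, ?_⟩, ?_⟩
  · intro a b x t h0 h1 hx
    refine hη.2 _ _ _ t h0 h1 ?_
    have hx : x.1 = t • a.1 + (1 - t) • b.1 := hx
    change ∑ i, x.1 i • c i = t • ∑ i, a.1 i • c i + (1 - t) • ∑ i, b.1 i • c i
    rw [hx, Finset.smul_sum, Finset.smul_sum, ← Finset.sum_add_distrib]
    refine Finset.sum_congr rfl fun i _ => ?_
    simp only [Pi.add_apply, Pi.smul_apply, smul_eq_mul, add_smul, mul_smul]
  · intro a x hx
    rw [mem_proj] at hx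
    exact congrArg η (Subtype.ext hx.2)

theorem exists_enum {C : Set E} (hC : IsPolytope C) :
    ∃ c : Fin (C.extremePoints ℝ).ncard → E, Function.Injective c ∧
      Set.range c = C.extremePoints ℝ ∧ 0 < (C.extremePoints ℝ).ncard := by
  have hfin := hC.2.2.2
  have : Fintype (C.extremePoints ℝ) := hfin.fintype
  have hcard : Fintype.card (C.extremePoints ℝ) = (C.extremePoints ℝ).ncard := by
    rw [Set.ncard_eq_toFinset_card', Set.toFinset_card]
  let e := Fintype.equivFinOfCardEq hcard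
  refine ⟨fun i => e.symm i, fun i j h => e.symm.injective (Subtype.ext h), ?_, ?_⟩
  · ext x
    constructor
    · rintro ⟨i, rfl⟩
      exact (e.symm i).2
    · intro hx
      exact ⟨e ⟨x, hx⟩, by simp⟩
  · rw [Set.ncard_pos hfin]
    exact hC.2.1.extremePoints_nonempty hC.1

theorem exists_enum' {C : Set E} (hC : IsPolytope C) {m : ℕ}
    (hm : (C.extremePoints ℝ).ncard = m) :
    ∃ c : Fin m → E, Function.Injective c ∧ Set.range c = C.extremePoints ℝ := by
  subst hm
  obtain ⟨c, h1, h2, _⟩ := exists_enum hC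
  exact ⟨c, h1, h2⟩

theorem lt_choose (k j : ℕ) (hj : 2 ≤ j) (hk : j + 2 ≤ k) : k < k.choose j := by
  induction k generalizing j with
  | zero => omega
  | succ k ih =>
    obtain ⟨j, rfl⟩ := Nat.exists_eq_add_of_le' (show 1 ≤ j by omega)
    rw [Nat.choose_succ_succ]
    by_cases h : j + 1 + 2 ≤ k
    · have h1 := ih (j + 1) hj h
      have h2 : 0 < k.choose j := Nat.choose_pos (by omega)
      simp only [Nat.succ_eq_add_one]
      omega
    · by_cases h4 : j = 1
      · subst h4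
        have : k = 3 := by omega
        subst this
        decide
      · have h1 := ih j (by omega) (by omega)
        have h2 : 0 < k.choose (j + 1) := Nat.choose_pos (by omega)
        simp only [Nat.succ_eq_add_one]
        omega

/-- The least dimension is attained and at most the number of extreme points minus one. -/
theorem leastDim_spec {C : Set E} (hC : IsPolytope C) :
    (∃ (κ : Type) (_ : Fintype κ) (T : Set (κ → ℝ)) (f : (κ → ℝ) →. E)
      (g : (T → ℝ) →. (C → ℝ)), IsRefinement C T f g ∧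
        Module.finrank ℝ (vectorSpan ℝ T) = leastDim C) ∧
    leastDim C + 1 ≤ (C.extremePoints ℝ).ncard := by
  obtain ⟨c, _, hc, hm⟩ := exists_enum hC
  have h1 := proj_refinement hC hc hm
  have : Nonempty (Fin (C.extremePoints ℝ).ncard) := ⟨⟨0, hm⟩⟩
  have h2 := finrank_stdSimplex (Fin (C.extremePoints ℝ).ncard)
  rw [Fintype.card_fin] at h2
  have h3 := leastDim_le h1
  refine ⟨?_, by omega⟩
  exact Nat.sInf_mem (s := {n | ∃ (κ : Type) (_ : Fintype κ) (T : Set (κ → ℝ)) (f : (κ → ℝ) →. E)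
    (g : (T → ℝ) →. (C → ℝ)), IsRefinement C T f g ∧ Module.finrank ℝ (vectorSpan ℝ T) = n})
    ⟨_, Fin (C.extremePoints ℝ).ncard, inferInstance, _, _, _, h1, rfl⟩

theorem refinement_card_le [FiniteDimensional ℝ E] {F : Type*} [AddCommGroup F] [Module ℝ F]
    {C : Set E} (hC : IsPolytope C) {T : Set F} {f : F →. E} {g : (T → ℝ) →. (C → ℝ)}
    (h : IsRefinement C T f g) :
    (C.extremePoints ℝ).ncard ≤ (Module.finrank ℝ (vectorSpan ℝ T) + 1).choose
      ((Module.finrank ℝ (vectorSpan ℝ T) + 1) / 2) := by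
  obtain ⟨n, v, hv, rfl⟩ := h.simplex
  rw [finrank_of_isSimplex hv]
  exact card_le_choose hC h

end Pool.Agent.X156.SR
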