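import Pool.Agent.X156.SR.Section

/-!
# The simplicial refinement of a central section of the cross-polytope
-/

set_option autoImplicit false

open Finset

namespace Pool.Agent.X156.SR

variable {ι : Type*} [Fintype ι]

/-- the difference map -/
def diff (a : ι × Bool → ℝ) : ι → ℝ := fun i => a (i, true) - a (i, false)

/-- The partial map from the simplex with vertices `(i, ±)` to the body: it is defined at `a` if
`diff a` lies in `L`, and its value is `diff a`. -/
def fmap (L : Submodule ℝ (ι → ℝ)) : (ι × Bool → ℝ) →. (ι → ℝ) :=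
  fun a => ⟨a ∈ stdSimplex ℝ (ι × Bool) ∧ diff a ∈ L, fun _ => diff a⟩

theorem mem_fmap {L : Submodule ℝ (ι → ℝ)} {a : ι × Bool → ℝ} {c : ι → ℝ} :
    c ∈ fmap L a ↔ a ∈ stdSimplex ℝ (ι × Bool) ∧ diff a ∈ L ∧ c = diff a := by
  constructor
  · rintro ⟨h, rfl⟩
    exact ⟨h.1, h.2, rfl⟩
  · rintro ⟨h1, h2, rfl⟩
    exact ⟨⟨h1, h2⟩, rfl⟩

theorem sum_diff_le {a : ι × Bool → ℝ} (ha : a ∈ stdSimplex ℝ (ι × Bool)) :
    ∑ i, |diff a i| ≤ 1 := by
  have h1 := ha.2
  rw [Fintype.sum_prod_type] at h1
  rw [← h1]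
  refine Finset.sum_le_sum fun i _ => ?_
  rw [Fintype.sum_bool]
  unfold diff
  have h2 := ha.1 (i, true)
  have h3 := ha.1 (i, false)
  rw [abs_le]
  constructor <;> linarith

omit [Fintype ι] in
theorem diff_comb (a b : ι × Bool → ℝ) (s t : ℝ) :
    diff (s • a + t • b) = s • diff a + t • diff b := by
  funext i
  simp only [diff, Pi.add_apply, Pi.smul_apply, smul_eq_mul]
  ring

/-- a preimage of a point of the cross-polytope -/
noncomputable def lift (x : ι → ℝ) : ι × Bool → ℝ := fun p =>
  (if p.2 then max (x p.1) 0 else max (-x p.1) 0) + (1 - ∑ i, |x i|) / (2 * Fintype.card ι)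

theorem diff_lift (x : ι → ℝ) : diff (lift x) = x := by
  funext i
  simp only [diff, lift, if_true, Bool.false_eq_true, if_false]
  rcases le_total 0 (x i) with h | h
  · rw [max_eq_left h, max_eq_right (by linarith)]
    ring
  · rw [max_eq_right h, max_eq_left (by linarith)]
    ring

theorem lift_mem [Nonempty ι] {x : ι → ℝ} (hx : ∑ i, |x i| ≤ 1) :
    lift x ∈ stdSimplex ℝ (ι × Bool) := by
  have hcard : (0 : ℝ) < Fintype.card ι := by exact_mod_cast Fintype.card_pos
  refine ⟨fun p => ?_, ?_⟩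
  · unfold lift
    have h1 : 0 ≤ (1 - ∑ i, |x i|) / (2 * Fintype.card ι) := by
      apply div_nonneg
      · linarith
      · positivity
    have h2 : 0 ≤ (if p.2 then max (x p.1) 0 else max (-x p.1) 0) := by
      split_ifs
      · exact le_max_right _ _
      · exact le_max_right _ _
    linarith
  · rw [Fintype.sum_prod_type]
    have h : ∀ i : ι, ∑ b : Bool, lift x (i, b) =
        |x i| + (1 - ∑ i, |x i|) / Fintype.card ι := by
      intro i
      rw [Fintype.sum_bool]
      simp only [lift, if_true, Bool.false_eq_true, if_false]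
      rcases le_total 0 (x i) with h | h
      · rw [max_eq_left h, max_eq_right (by linarith), abs_of_nonneg h]
        field_simp
        ring
      · rw [max_eq_right h, max_eq_left (by linarith), abs_of_nonpos h]
        field_simp
        ring
    rw [Finset.sum_congr rfl fun i _ => h i, Finset.sum_add_distrib, Finset.sum_const,
      Finset.card_univ, nsmul_eq_mul]
    field_simp
    ring

theorem fmap_partial [Nonempty ι] (L : Submodule ℝ (ι → ℝ)) :
    IsPartialOntoAffine (stdSimplex ℝ (ι × Bool)) (body L) (fmap L) := by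
  refine ⟨fun a c h => ?_, fun a b c d hc hd t h0 h1 => ?_, fun c hc => ?_⟩
  · rw [mem_fmap] at h
    obtain ⟨h1, h2, rfl⟩ := h
    exact ⟨h1, h2, sum_diff_le h1⟩
  · rw [mem_fmap] at hc hd ⊢
    obtain ⟨h1, h2, rfl⟩ := hc
    obtain ⟨h3, h4, rfl⟩ := hd
    refine ⟨convex_stdSimplex ℝ _ h1 h3 h0 (by linarith) (by ring), ?_, (diff_comb _ _ _ _).symm⟩
    rw [diff_comb]
    exact L.add_mem (L.smul_mem _ h2) (L.smul_mem _ h4)
  · refine ⟨lift c, mem_fmap.2 ⟨lift_mem hc.2, ?_, (diff_lift c).symm⟩⟩
    rw [diff_lift]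
    exact hc.1

theorem isSimplex_stdSimplex (κ : Type*) [Fintype κ] [Nonempty κ] :
    IsSimplex (stdSimplex ℝ κ) := by
  classical
  obtain ⟨n, hn⟩ := Nat.exists_eq_succ_of_ne_zero (Fintype.card_ne_zero (α := κ))
  let e : Fin (n + 1) ≃ κ := (Fintype.equivFinOfCardEq hn).symm
  have hli : LinearIndependent ℝ (fun i : κ => (Pi.single i 1 : κ → ℝ)) := by
    have := (Pi.basisFun ℝ κ).linearIndependent
    convert this using 1
    funext i
    simp
  refine ⟨n, fun j => Pi.single (e j) 1, ?_, ?_⟩
  · exact (hli.affineIndependent).comp_embedding e.toEmbedding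
  · rw [← convexHull_rangle_single_eq_stdSimplex]
    congr 1
    ext x
    constructor
    · rintro ⟨i, rfl⟩
      exact ⟨e.symm i, by simp⟩
    · rintro ⟨j, rfl⟩
      exact ⟨e j, rfl⟩

theorem ncard_extreme_stdSimplex_le (κ : Type*) [Fintype κ] :
    ((stdSimplex ℝ κ).extremePoints ℝ).ncard ≤ Fintype.card κ := by
  classical
  rw [← convexHull_rangle_single_eq_stdSimplex]
  calc _ ≤ (Set.range fun i : κ => (Pi.single i 1 : κ → ℝ)).ncard :=
        Set.ncard_le_ncard extremePoints_convexHull_subset (Set.finite_range _)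
    _ ≤ (Set.univ : Set κ).ncard := by
        rw [← Set.image_univ]
        exact Set.ncard_image_le Set.finite_univ
    _ = Fintype.card κ := by rw [Set.ncard_univ, Nat.card_eq_fintype_card]

/-- **The refinement.** -/
theorem isRefinement_body [Nonempty ι] (L : Submodule ℝ (ι → ℝ)) :
    IsRefinement (body L) (stdSimplex ℝ (ι × Bool)) (fmap L)
      (pull (body L) (stdSimplex ℝ (ι × Bool)) (fmap L)) := by
  refine isRefinement_pull (isSimplex_stdSimplex _) (fmap_partial L) fun η hη => ?_
  obtain ⟨α, y, h1, h2⟩ := exists_ext hη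
  refine ⟨fun a => α + y (diff a.1), ⟨fun a => h2 _ (sum_diff_le a.2), ?_⟩, ?_⟩
  · intro a b c t _ _ hc
    change α + y (diff c.1) = t * (α + y (diff a.1)) + (1 - t) * (α + y (diff b.1))
    have hc : c.1 = t • a.1 + (1 - t) • b.1 := hc
    rw [hc, diff_comb, map_add, map_smul, map_smul, smul_eq_mul, smul_eq_mul]
    ring
  · intro a c hc
    rw [mem_fmap] at hc
    rw [h1, hc.2.2]

end Pool.Agent.X156.SR
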