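import Pool.Agent.X156.SR.Basic

/-!
# Central sections of the cross-polytope and their simplicial refinements
-/

set_option autoImplicit false

open Finset

namespace Pool.Agent.X156.SR

variable {ι : Type*} [Fintype ι]

/-- The section of the cross-polytope `{x | ∑ |x i| ≤ 1}` by the subspace `L`. -/
def body (L : Submodule ℝ (ι → ℝ)) : Set (ι → ℝ) := {x | x ∈ L ∧ ∑ i, |x i| ≤ 1}

theorem body_zero (L : Submodule ℝ (ι → ℝ)) : (0 : ι → ℝ) ∈ body L := by
  refine ⟨L.zero_mem, ?_⟩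
  simp

theorem body_neg {L : Submodule ℝ (ι → ℝ)} {x : ι → ℝ} (h : x ∈ body L) : -x ∈ body L := by
  refine ⟨L.neg_mem h.1, ?_⟩
  simpa using h.2

theorem sum_abs_smul (t : ℝ) (x : ι → ℝ) : ∑ i, |(t • x) i| = |t| * ∑ i, |x i| := by
  rw [Finset.mul_sum]
  exact Finset.sum_congr rfl fun i _ => by rw [Pi.smul_apply, smul_eq_mul, abs_mul]

theorem sum_abs_add (x y : ι → ℝ) : ∑ i, |(x + y) i| ≤ ∑ i, |x i| + ∑ i, |y i| := by
  rw [← Finset.sum_add_distrib]
  exact Finset.sum_le_sum fun i _ => abs_add_le _ _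

theorem body_convex (L : Submodule ℝ (ι → ℝ)) : Convex ℝ (body L) := by
  intro x hx y hy a b ha hb hab
  refine ⟨L.add_mem (L.smul_mem _ hx.1) (L.smul_mem _ hy.1), ?_⟩
  calc ∑ i, |(a • x + b • y) i| ≤ ∑ i, |(a • x) i| + ∑ i, |(b • y) i| := sum_abs_add _ _
    _ = a * ∑ i, |x i| + b * ∑ i, |y i| := by
        rw [sum_abs_smul, sum_abs_smul, abs_of_nonneg ha, abs_of_nonneg hb]
    _ ≤ a * 1 + b * 1 := by
        have := mul_le_mul_of_nonneg_left hx.2 ha
        have := mul_le_mul_of_nonneg_left hy.2 hb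
        linarith
    _ = 1 := by linarith

theorem body_scale {L : Submodule ℝ (ι → ℝ)} {x : ι → ℝ} (hx : x ∈ L) {r : ℝ} (hr : 0 < r)
    (h : ∑ i, |x i| ≤ r) : r⁻¹ • x ∈ body L := by
  refine ⟨L.smul_mem _ hx, ?_⟩
  rw [sum_abs_smul, abs_of_pos (inv_pos.2 hr), inv_mul_le_iff₀ hr]
  linarith

/-- the value of a form on the body, extended by zero -/
noncomputable def val {L : Submodule ℝ (ι → ℝ)} (η : body L → ℝ) (x : ι → ℝ) : ℝ := by
  classical
  exact if h : x ∈ body L then η ⟨x, h⟩ else 0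

theorem val_eq {L : Submodule ℝ (ι → ℝ)} (η : body L → ℝ) (x : body L) : val η x = η x := by
  unfold val
  rw [dif_pos x.2]

theorem val_comb {L : Submodule ℝ (ι → ℝ)} {η : body L → ℝ} (hη : η ∈ Omega (body L))
    {x y : ι → ℝ} (hx : x ∈ body L) (hy : y ∈ body L) {t : ℝ} (h0 : 0 ≤ t) (h1 : t ≤ 1) :
    val η (t • x + (1 - t) • y) = t * val η x + (1 - t) * val η y := by
  have hc : t • x + (1 - t) • y ∈ body L := body_convex L hx hy h0 (by linarith) (by ring)
  have := hη.2 ⟨x, hx⟩ ⟨y, hy⟩ ⟨_, hc⟩ t h0 h1 rfl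
  rw [← val_eq η, ← val_eq η, ← val_eq η] at this
  exact this

theorem val_smul {L : Submodule ℝ (ι → ℝ)} {η : body L → ℝ} (hη : η ∈ Omega (body L))
    {x : ι → ℝ} (hx : x ∈ body L) {t : ℝ} (h0 : 0 ≤ t) (h1 : t ≤ 1) :
    val η (t • x) - val η 0 = t * (val η x - val η 0) := by
  have := val_comb hη hx (body_zero L) h0 h1
  rw [smul_zero, add_zero] at this
  rw [this]
  ring

/-- the linear part at scale `r` -/
noncomputable def lin {L : Submodule ℝ (ι → ℝ)} (η : body L → ℝ) (r : ℝ) (x : ι → ℝ) : ℝ :=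
  r * (val η (r⁻¹ • x) - val η 0)

theorem lin_mono {L : Submodule ℝ (ι → ℝ)} {η : body L → ℝ} (hη : η ∈ Omega (body L))
    {x : ι → ℝ} (hx : x ∈ L) {r s : ℝ} (hr : 0 < r) (hrs : r ≤ s) (h : ∑ i, |x i| ≤ r) :
    lin η s x = lin η r x := by
  have hs : 0 < s := lt_of_lt_of_le hr hrs
  have h1 : s⁻¹ • x = (r / s) • (r⁻¹ • x) := by
    rw [smul_smul]
    congr 1
    field_simp
  unfold lin
  rw [h1, val_smul hη (body_scale hx hr h) (by positivity) ((div_le_one hs).2 hrs)]
  field_simp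

theorem lin_eq {L : Submodule ℝ (ι → ℝ)} {η : body L → ℝ} (hη : η ∈ Omega (body L))
    {x : ι → ℝ} (hx : x ∈ L) {r s : ℝ} (hr : 0 < r) (hs : 0 < s) (h : ∑ i, |x i| ≤ r)
    (h' : ∑ i, |x i| ≤ s) :
    lin η s x = lin η r x := by
  rcases le_total r s with h1 | h1
  · exact lin_mono hη hx hr h1 h
  · exact (lin_mono hη hx hs h1 h').symm

theorem lin_add {L : Submodule ℝ (ι → ℝ)} {η : body L → ℝ} (hη : η ∈ Omega (body L))
    {x y : ι → ℝ} (hx : x ∈ L) (hy : y ∈ L) {r : ℝ} (hr : 0 < r) (h : ∑ i, |x i| ≤ r)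
    (h' : ∑ i, |y i| ≤ r) : lin η (2 * r) (x + y) = lin η r x + lin η r y := by
  have h1 : (2 * r)⁻¹ • (x + y) = (1 / 2 : ℝ) • (r⁻¹ • x) + (1 - 1 / 2 : ℝ) • (r⁻¹ • y) := by
    rw [smul_smul, smul_smul, smul_add]
    congr 2 <;> (rw [mul_inv]; norm_num)
  unfold lin
  rw [h1, val_comb hη (body_scale hx hr h) (body_scale hy hr h') (by norm_num) (by norm_num)]
  ring

/-- the linear functional on `L` -/
noncomputable def linL {L : Submodule ℝ (ι → ℝ)} (η : body L → ℝ) (hη : η ∈ Omega (body L)) :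
    L →ₗ[ℝ] ℝ where
  toFun x := lin η (1 + ∑ i, |(x : ι → ℝ) i|) x
  map_add' x y := by
    have hx : 0 ≤ ∑ i, |(x : ι → ℝ) i| := Finset.sum_nonneg fun _ _ => abs_nonneg _
    have hy : 0 ≤ ∑ i, |(y : ι → ℝ) i| := Finset.sum_nonneg fun _ _ => abs_nonneg _
    have hxy : 0 ≤ ∑ i, |((x + y : L) : ι → ℝ) i| := Finset.sum_nonneg fun _ _ => abs_nonneg _
    have hle : ∑ i, |((x + y : L) : ι → ℝ) i| ≤
        ∑ i, |(x : ι → ℝ) i| + ∑ i, |(y : ι → ℝ) i| := sum_abs_add _ _
    set R := 1 + ∑ i, |(x : ι → ℝ) i| + ∑ i, |(y : ι → ℝ) i| with hR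
    rw [lin_eq hη (x + y).2 (r := 2 * R) (by positivity) (by positivity) (by linarith)
        (by linarith),
      lin_eq hη x.2 (r := R) (by positivity) (by positivity) (by linarith) (by linarith),
      lin_eq hη y.2 (r := R) (by positivity) (by positivity) (by linarith) (by linarith)]
    exact lin_add hη x.2 y.2 (by positivity) (by linarith) (by linarith)
  map_smul' t x := by
    have key : ∀ (t : ℝ) (x : L), 0 < t → lin η (1 + ∑ i, |((t • x : L) : ι → ℝ) i|) (t • x : L) =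
        t * lin η (1 + ∑ i, |(x : ι → ℝ) i|) x := by
      intro t x ht
      have hx : 0 ≤ ∑ i, |(x : ι → ℝ) i| := Finset.sum_nonneg fun _ _ => abs_nonneg _
      have hs : ∑ i, |((t • x : L) : ι → ℝ) i| = t * ∑ i, |(x : ι → ℝ) i| := by
        have := sum_abs_smul t (x : ι → ℝ)
        rw [abs_of_pos ht] at this
        exact this
      set R := 1 + ∑ i, |(x : ι → ℝ) i| with hR
      have hRp : 0 < R := by positivity
      have h0 : 0 ≤ ∑ i, |((t • x : L) : ι → ℝ) i| := by rw [hs]; positivity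
      rw [lin_eq hη (t • x).2 (r := t * R) (by positivity) (by positivity)
        (by rw [hs, hR]; nlinarith) (by linarith)]
      unfold lin
      have h1 : (t * R)⁻¹ • ((t • x : L) : ι → ℝ) = R⁻¹ • (x : ι → ℝ) := by
        rw [Submodule.coe_smul, smul_smul]
        congr 1
        field_simp
      rw [h1]
      ring
    have hadd : ∀ x y : L, lin η (1 + ∑ i, |((x + y : L) : ι → ℝ) i|) (x + y : L) =
        lin η (1 + ∑ i, |(x : ι → ℝ) i|) x + lin η (1 + ∑ i, |(y : ι → ℝ) i|) y := by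
      intro x y
      have hx : 0 ≤ ∑ i, |(x : ι → ℝ) i| := Finset.sum_nonneg fun _ _ => abs_nonneg _
      have hy : 0 ≤ ∑ i, |(y : ι → ℝ) i| := Finset.sum_nonneg fun _ _ => abs_nonneg _
      have hxy : 0 ≤ ∑ i, |((x + y : L) : ι → ℝ) i| := Finset.sum_nonneg fun _ _ => abs_nonneg _
      have hle : ∑ i, |((x + y : L) : ι → ℝ) i| ≤
          ∑ i, |(x : ι → ℝ) i| + ∑ i, |(y : ι → ℝ) i| := sum_abs_add _ _
      set R := 1 + ∑ i, |(x : ι → ℝ) i| + ∑ i, |(y : ι → ℝ) i| with hR
      rw [lin_eq hη (x + y).2 (r := 2 * R) (by positivity) (by positivity) (by linarith)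
          (by linarith),
        lin_eq hη x.2 (r := R) (by positivity) (by positivity) (by linarith) (by linarith),
        lin_eq hη y.2 (r := R) (by positivity) (by positivity) (by linarith) (by linarith)]
      exact lin_add hη x.2 y.2 (by positivity) (by linarith) (by linarith)
    have hzero : lin η (1 + ∑ i, |((0 : L) : ι → ℝ) i|) (0 : L) = 0 := by
      have := hadd 0 0
      rw [add_zero] at this
      linarith
    rcases lt_trichotomy t 0 with ht | rfl | ht
    · have h1 := key (-t) x (by linarith)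
      have h2 := hadd (t • x) ((-t) • x)
      rw [← add_smul, add_neg_cancel, zero_smul, hzero, h1] at h2
      simp only [smul_eq_mul, RingHom.id_apply]
      linarith
    · simp only [zero_smul, RingHom.id_apply]
      exact hzero
    · exact key t x ht

theorem linL_body {L : Submodule ℝ (ι → ℝ)} {η : body L → ℝ} (hη : η ∈ Omega (body L))
    (x : L) (hx : (x : ι → ℝ) ∈ body L) : linL η hη x = val η x - val η 0 := by
  have h0 : 0 ≤ ∑ i, |(x : ι → ℝ) i| := Finset.sum_nonneg fun _ _ => abs_nonneg _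
  change lin η (1 + ∑ i, |(x : ι → ℝ) i|) x = _
  rw [lin_eq hη x.2 (r := 1) (by norm_num) (by positivity) hx.2 (by linarith)]
  unfold lin
  rw [inv_one, one_smul, one_mul]

/-- Norm-preserving extension: every form on the body is `α + y`, with `y` a linear functional on
the whole space with `|y (x)| ≤ min α (1 - α)` on the cross-polytope. -/
theorem exists_ext {L : Submodule ℝ (ι → ℝ)} {η : body L → ℝ} (hη : η ∈ Omega (body L)) :
    ∃ (α : ℝ) (y : (ι → ℝ) →ₗ[ℝ] ℝ), (∀ x : body L, η x = α + y x) ∧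
      ∀ x : ι → ℝ, ∑ i, |x i| ≤ 1 → 0 ≤ α + y x ∧ α + y x ≤ 1 := by
  set α := val η 0 with hα
  set c := min α (1 - α) with hc
  have hval : ∀ x ∈ body L, 0 ≤ val η x ∧ val η x ≤ 1 := by
    intro x hx
    have := hη.1 ⟨x, hx⟩
    rw [← val_eq η] at this
    exact this
  have hc0 : 0 ≤ c := le_min (hval 0 (body_zero L)).1 (by linarith [(hval 0 (body_zero L)).2])
  have hneg : ∀ x ∈ body L, val η (-x) = 2 * α - val η x := by
    intro x hx
    have := val_comb hη hx (body_neg hx) (t := 1 / 2) (by norm_num) (by norm_num)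
    have h2 : (1 / 2 : ℝ) • x + (1 - 1 / 2 : ℝ) • -x = 0 := by
      rw [smul_neg, ← sub_eq_add_neg, ← sub_smul]
      norm_num
    rw [h2] at this
    linarith
  have hle : ∀ x ∈ body L, val η x - α ≤ c := by
    intro x hx
    have h1 := hval x hx
    have h2 := hval (-x) (body_neg hx)
    rw [hneg x hx] at h2
    exact le_min (by linarith) (by linarith)
  let N : (ι → ℝ) → ℝ := fun x => c * ∑ i, |x i|
  have hbound : ∀ x : L, linL η hη x ≤ N x := by
    intro x
    have h0 : 0 ≤ ∑ i, |(x : ι → ℝ) i| := Finset.sum_nonneg fun _ _ => abs_nonneg _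
    rcases eq_or_lt_of_le h0 with h | h
    · have hx : (x : ι → ℝ) = 0 := by
        funext i
        have := (Finset.sum_eq_zero_iff_of_nonneg fun _ _ => abs_nonneg _).1 h.symm i
          (Finset.mem_univ i)
        exact abs_eq_zero.1 this
      have hx' : x = 0 := Subtype.ext hx
      simp only [N, hx', map_zero]
      simp
    · have h1 : (∑ i, |(x : ι → ℝ) i|)⁻¹ • (x : ι → ℝ) ∈ body L := body_scale x.2 h le_rfl
      have h2 := hle _ h1
      have h3 := linL_body hη ((∑ i, |(x : ι → ℝ) i|)⁻¹ • x) h1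
      rw [map_smul] at h3
      simp only [Submodule.coe_smul, smul_eq_mul] at h3
      have h4 : linL η hη x = (∑ i, |(x : ι → ℝ) i|) *
          (val η ((∑ i, |(x : ι → ℝ) i|)⁻¹ • (x : ι → ℝ)) - α) := by
        rw [← h3]
        field_simp
      rw [h4]
      simp only [N]
      rw [mul_comm c]
      exact mul_le_mul_of_nonneg_left h2 h0
  obtain ⟨g, hg1, hg2⟩ := exists_extension_of_le_sublinear ⟨L, linL η hη⟩ N
    (fun t ht x => by
      simp only [N]
      rw [sum_abs_smul, abs_of_pos ht]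
      ring)
    (fun x y => by
      simp only [N]
      have := mul_le_mul_of_nonneg_left (sum_abs_add x y) hc0
      linarith)
    (fun x => hbound x)
  refine ⟨α, g, fun x => ?_, fun x hx => ?_⟩
  · have h1 := hg1 ⟨x, x.2.1⟩
    change g x = linL η hη ⟨x, x.2.1⟩ at h1
    rw [linL_body hη ⟨x, x.2.1⟩ x.2] at h1
    rw [h1, val_eq]
    ring
  · have h1 := hg2 x
    have h2 := hg2 (-x)
    have h3 : ∑ i, |(-x) i| = ∑ i, |x i| := by simp
    have h4 : c * ∑ i, |x i| ≤ c := by
      have := mul_le_mul_of_nonneg_left hx hc0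
      linarith
    simp only [N] at h1 h2
    rw [h3, map_neg] at h2
    have h5 : c ≤ α := min_le_left _ _
    have h6 : c ≤ 1 - α := min_le_right _ _
    constructor <;> linarith

end Pool.Agent.X156.SR
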